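import Mathlib
import Pool.Agent.H15.G.R_seed8.W611.Place2
import Pool.Agent.H15.G.R_seed8.W609.Nc

set_option autoImplicit false

/-!
# Ranks away from the critical size: unions of two sets of monomials
-/

namespace Pool.Agent.W609.T

open Polynomial Pool.Agent.H932R2 Pool.Agent.H932R3 Pool.Agent.H932R7
open Pool.Agent.W608 Pool.Agent.W611

/-- The ranks on `Q` are the expected ones, except in a window of size `W`. -/
def NC (m : ℕ) (Q : Finset (ℕ × ℕ)) (W : ℕ) : Prop :=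
  ∀ (ι : Type) [Fintype ι] (w : ι → ℕ), (∀ a, w a ≤ m) →
    (Aw w + W ≤ Q.card → RkS (PF ℚ w) (↑Q : Set (ℕ × ℕ)) (Aw w)) ∧
    (Q.card + W ≤ Aw w → RkS (PF ℚ w) (↑Q : Set (ℕ × ℕ)) Q.card)

theorem NC.mono {m : ℕ} {Q : Finset (ℕ × ℕ)} {W W' : ℕ} (h : NC m Q W) (hW : W ≤ W') :
    NC m Q W' := fun ι _ w hw =>
  ⟨fun h1 => (h ι w hw).1 (by omega), fun h1 => (h ι w hw).2 (by omega)⟩

/-- Between two sets. -/
theorem NC.between {m : ℕ} {Q₁ Q Q₂ : Finset (ℕ × ℕ)} {W₁ W₂ W : ℕ} (h₁ : NC m Q₁ W₁)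
    (h₂ : NC m Q₂ W₂) (hs₁ : Q₁ ⊆ Q) (hs₂ : Q ⊆ Q₂) (hW₁ : Q.card + W₁ ≤ Q₁.card + W)
    (hW₂ : Q₂.card + W₂ ≤ Q.card + W) : NC m Q W := fun ι _ w hw =>
  ⟨fun h => RkS.mono (by exact_mod_cast hs₁) ((h₁ ι w hw).1 (by omega)),
    fun h => RkS.subset ((h₂ ι w hw).2 (by omega)) hs₂⟩

/-- Transport. -/
theorem NC.of_imp {m : ℕ} {Q Q' : Finset (ℕ × ℕ)} {W : ℕ} (hc : Q'.card = Q.card)
    (h : ∀ (ι : Type) [Fintype ι] (w : ι → ℕ) (n : ℕ), RkS (PF ℚ w) (↑Q' : Set (ℕ × ℕ)) n →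
      RkS (PF ℚ w) (↑Q : Set (ℕ × ℕ)) n) (h' : NC m Q' W) : NC m Q W := fun ι _ w hw =>
  ⟨fun h1 => h ι w _ ((h' ι w hw).1 (by omega)),
    fun h1 => h ι w _ (hc ▸ (h' ι w hw).2 (by omega))⟩

/-- Placing the points with multiplicities `w` in the columns `e, e+1, ...`. -/
theorem comb_col {ι ι' : Type} [Fintype ι] (w : ι → ℕ) (w' : ι' → ℕ) (Q : Finset (ℕ × ℕ))
    (e e₀ : ℕ) (he : e ≤ e₀)
    (h1 : RkS (PF ℚ w) (↑(Q.filter fun p => e ≤ p.1) : Set (ℕ × ℕ)) (Aw w))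
    (h0 : RkS (PF ℚ w) (↑(Q.filter fun p => e₀ ≤ p.1) : Set (ℕ × ℕ))
      (Q.filter fun p => e₀ ≤ p.1).card) (N : ℕ)
    (h2 : ∀ R ⊆ Q.filter fun p => e ≤ p.1, (Q.filter fun p => e₀ ≤ p.1) ⊆ R → R.card = Aw w →
      RkS (PF ℚ w') ((↑Q : Set (ℕ × ℕ)) \ (↑R : Set (ℕ × ℕ))) N) :
    RkS (PF ℚ (Sum.elim w w')) (↑Q : Set (ℕ × ℕ)) (Aw w + N) := by
  classical
  obtain ⟨B, hB⟩ : ∃ B, B = Q.sup (fun p => p.2) := ⟨_, rfl⟩
  have hBle : ∀ p ∈ Q, p.2 ≤ B := fun p hp => by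
    rw [hB]
    exact Finset.le_sup (f := fun p : ℕ × ℕ => p.2) hp
  have hlt : ∀ x ∈ Q, ∀ y : ℕ × ℕ, x.1 < y.1 → (B + 1) * x.1 + x.2 < (B + 1) * y.1 + y.2 := by
    intro x hx y hxy
    have h3 := hBle x hx
    have h4 : (B + 1) * (x.1 + 1) ≤ (B + 1) * y.1 := Nat.mul_le_mul_left _ hxy
    rw [Nat.mul_add] at h4
    omega
  refine comb2 w w' Q (Q.filter fun p => e ≤ p.1) (Q.filter fun p => e₀ ≤ p.1) (B + 1)
    (Finset.filter_subset _ _) ?_ ?_ ?_ ?_ (common h1 h0) N h2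
  · intro p hp
    rw [Finset.mem_filter] at hp ⊢
    exact ⟨hp.1, he.trans hp.2⟩
  · intro x hx y hy hxy
    beta_reduce at hxy
    rcases Nat.lt_trichotomy x.1 y.1 with h | h | h
    · have := hlt x hx y h
      omega
    · rw [h] at hxy
      exact Prod.ext h (by omega)
    · have := hlt y hy x h
      omega
  · intro x hx hxT y hy
    rw [Finset.mem_filter] at hy
    have h3 : x.1 < e := by
      by_contra h4
      exact hxT (Finset.mem_filter.2 ⟨hx, not_lt.1 h4⟩)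
    exact hlt x hx y (by omega)
  · intro x hx hxT y hy
    rw [Finset.mem_filter] at hy hx
    have h3 : x.1 < e₀ := by
      by_contra h4
      exact hxT (Finset.mem_filter.2 ⟨hx.1, not_lt.1 h4⟩)
    exact hlt x hx.1 y (by omega)

/-- Choice of a part of the points. -/
theorem choose_part {ι : Type} [Fintype ι] [DecidableEq ι] (f : ι → ℕ) (c L : ℕ)
    (hf : ∀ a, f a ≤ c) :
    (∃ S : Finset ι, ∑ a ∈ S, f a ≤ L ∧ (S = Finset.univ ∨ L < ∑ a ∈ S, f a + c)) ∧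
    (L ≤ ∑ a, f a → ∃ S : Finset ι, L ≤ ∑ a ∈ S, f a ∧ ∑ a ∈ S, f a < L + c + 1) := by
  classical
  constructor
  · obtain ⟨S, hS, hmax⟩ := Finset.exists_max_image
      ((Finset.univ : Finset ι).powerset.filter fun S => ∑ a ∈ S, f a ≤ L) Finset.card
      ⟨∅, by simp⟩
    rw [Finset.mem_filter] at hS
    refine ⟨S, hS.2, ?_⟩
    by_cases hu : S = Finset.univ
    · exact Or.inl hu
    · right
      obtain ⟨a, ha⟩ : ∃ a, a ∉ S := by
        by_contra hcon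
        push Not at hcon
        exact hu (Finset.eq_univ_iff_forall.2 hcon)
      by_contra hcon
      have h1 := hmax (insert a S) (by
        rw [Finset.mem_filter, Finset.mem_powerset]
        refine ⟨Finset.subset_univ _, ?_⟩
        rw [Finset.sum_insert ha]
        have := hf a
        omega)
      rw [Finset.card_insert_of_notMem ha] at h1
      omega
  · intro hL
    obtain ⟨S, hS, hmin⟩ := Finset.exists_min_image
      ((Finset.univ : Finset ι).powerset.filter fun S => L ≤ ∑ a ∈ S, f a) Finset.card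
      ⟨Finset.univ, by
        rw [Finset.mem_filter, Finset.mem_powerset]
        exact ⟨Finset.Subset.refl _, hL⟩⟩
    rw [Finset.mem_filter] at hS
    refine ⟨S, hS.2, ?_⟩
    rcases S.eq_empty_or_nonempty with h0 | ⟨a, ha⟩
    · rw [h0, Finset.sum_empty]
      omega
    · by_contra hcon
      have h1 : ∑ b ∈ S.erase a, f b + f a = ∑ b ∈ S, f b := Finset.sum_erase_add _ _ ha
      have h2 := hf a
      have h3 := hmin (S.erase a) (by
        rw [Finset.mem_filter, Finset.mem_powerset]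
        exact ⟨Finset.subset_univ _, by omega⟩)
      rw [Finset.card_erase_of_mem ha] at h3
      have h4 : 0 < S.card := Finset.card_pos.2 ⟨a, ha⟩
      omega

theorem Aw_sub {ι : Type} [Fintype ι] (w : ι → ℕ) (S : Finset ι) :
    Aw (fun a : {a // a ∈ S} => w a) = ∑ a ∈ S, (w a + 1).choose 2 := by
  unfold Aw
  rw [Finset.sum_coe_sort S fun a => (w a + 1).choose 2]

/-- The union of two sets of columns. -/
theorem nc_union {m : ℕ} {Q : Finset (ℕ × ℕ)} {e W₁ W₂ : ℕ}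
    (hT : NC m (Q.filter fun p => e ≤ p.1) W₁) (hZ : NC m (Q.filter fun p => ¬ e ≤ p.1) W₂)
    (hT1 : W₁ ≤ (Q.filter fun p => e ≤ p.1).card)
    (hZ1 : 2 * W₁ + W₂ + 2 * (m + 1).choose 2 ≤ (Q.filter fun p => ¬ e ≤ p.1).card) :
    NC m Q (W₁ + W₂ + (m + 1).choose 2) := by
  classical
  obtain ⟨T, hTd⟩ : ∃ T, T = Q.filter fun p => e ≤ p.1 := ⟨_, rfl⟩
  obtain ⟨Z, hZd⟩ : ∃ Z, Z = Q.filter fun p => ¬ e ≤ p.1 := ⟨_, rfl⟩
  have hcard := Finset.card_filter_add_card_filter_not (s := Q) (fun p => e ≤ p.1)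
  rw [← hTd] at hT hT1 hcard
  rw [← hZd] at hZ hZ1 hcard
  obtain ⟨c, hc⟩ : ∃ c, c = (m + 1).choose 2 := ⟨_, rfl⟩
  rw [← hc] at hZ1 ⊢
  have hind : ∀ (ι : Type) [Fintype ι] (w : ι → ℕ), (∀ a, w a ≤ m) →
      Aw w + (W₁ + W₂ + c) ≤ Q.card → RkS (PF ℚ w) (↑Q : Set (ℕ × ℕ)) (Aw w) := by
    intro ι _ w hw h
    obtain ⟨f, hf⟩ : ∃ f : ι → ℕ, f = fun a => (w a + 1).choose 2 := ⟨_, rfl⟩
    have hfc : ∀ a, f a ≤ c := fun a => by
      rw [hf, hc]
      exact Nat.choose_le_choose 2 (by have := hw a; omega)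
    obtain ⟨S, hS1, hS2⟩ := (choose_part f c (T.card - W₁) hfc).1
    have hAS : Aw (fun a : {a // a ∈ S} => w a) = ∑ a ∈ S, f a := by rw [Aw_sub, hf]
    rcases hS2 with hS2 | hS2
    · have h1 := (hT ι w hw).1 (by
        have h2 : Aw w = ∑ a, f a := by
          unfold Aw
          rw [hf]
        rw [h2, ← hS2]
        omega)
      refine RkS.mono ?_ h1
      rw [hTd]
      exact_mod_cast Finset.filter_subset _ _
    · have hsp := Aw_split w S
      have h1 := (hT {a // a ∈ S} (fun a => w a) (fun a => hw a)).1 (by rw [hAS]; omega)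
      have h2 := (hZ {a // a ∉ S} (fun a => w a) (fun a => hw a)).1 (by
        rw [hAS] at hsp
        omega)
      rw [hsp]
      refine split_S w S Q _ ?_
      refine comb_col _ _ Q e (Q.sup Prod.fst + e + 1) (by omega) (by rw [← hTd]; exact h1) ?_ _ ?_
      · have h3 : (Q.filter fun p => Q.sup Prod.fst + e + 1 ≤ p.1) = ∅ := by
          rw [Finset.filter_eq_empty_iff]
          intro p hp
          have := Finset.le_sup (f := Prod.fst) hp
          omega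
        rw [h3, Finset.card_empty]
        exact ⟨_, ⟨fun _ => 0, fun _ => 0, rfl⟩, Fin.elim0, fun i => Fin.elim0 i,
          fun _ _ i => Fin.elim0 i⟩
      · intro R hR _ _
        refine RkS.mono ?_ h2
        intro p hp
        rw [hZd, Finset.mem_coe, Finset.mem_filter] at hp
        refine ⟨hp.1, fun h4 => hp.2 ?_⟩
        exact (Finset.mem_filter.1 (hR h4)).2
  intro ι _ w hw
  refine ⟨hind ι w hw, fun h => ?_⟩
  obtain ⟨f, hf⟩ : ∃ f : ι → ℕ, f = fun a => (w a + 1).choose 2 := ⟨_, rfl⟩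
  have hfc : ∀ a, f a ≤ c := fun a => by
    rw [hf, hc]
    exact Nat.choose_le_choose 2 (by have := hw a; omega)
  have hAf : Aw w = ∑ a, f a := by
    unfold Aw
    rw [hf]
  obtain ⟨S, hS1, hS2⟩ := (choose_part f c (T.card + W₁) hfc).2 (by omega)
  have hAS : Aw (fun a : {a // a ∈ S} => w a) = ∑ a ∈ S, f a := by rw [Aw_sub, hf]
  have hsp := Aw_split w S
  have h1 := (hT {a // a ∈ S} (fun a => w a) (fun a => hw a)).2 (by rw [hAS]; omega)
  have h2 := (hZ {a // a ∉ S} (fun a => w a) (fun a => hw a)).2 (by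
    rw [hAS] at hsp
    omega)
  have h3 := hind {a // a ∈ S} (fun a => w a) (fun a => hw a) (by rw [hAS]; omega)
  have hQ0 : (Q.filter fun p => 0 ≤ p.1) = Q := Finset.filter_true_of_mem fun _ _ => Nat.zero_le _
  obtain ⟨N, hN⟩ : ∃ N, Q.card = Aw (fun a : {a // a ∈ S} => w a) + N :=
    ⟨Q.card - Aw (fun a : {a // a ∈ S} => w a), by omega⟩
  rw [hN]
  refine split_S w S Q _ ?_
  refine comb_col _ _ Q 0 e (Nat.zero_le _) (by rw [hQ0]; exact h3) (by rw [← hTd]; exact h1) _ ?_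
  intro R hR hTR hRc
  rw [hQ0] at hR
  rw [← hTd] at hTR
  have h4 : (Q \ R).card = N := by
    have := Finset.card_sdiff_of_subset hR
    omega
  have h5 : Q \ R ⊆ Z := by
    intro p hp
    rw [Finset.mem_sdiff] at hp
    rw [hZd, Finset.mem_filter]
    refine ⟨hp.1, fun h6 => hp.2 (hTR ?_)⟩
    rw [hTd, Finset.mem_filter]
    exact ⟨hp.1, h6⟩
  have h6 := RkS.subset h2 h5
  rw [h4] at h6
  exact_mod_cast h6

end Pool.Agent.W609.T
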