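import Mathlib
import Pool.Agent.H15.G.R_seed8.W609.T.Nc

set_option autoImplicit false

/-!
# Inversions of the coordinates
-/

namespace Pool.Agent.W609.T

open Polynomial Pool.Agent.H932R2 Pool.Agent.H932R3 Pool.Agent.H932R7
open Pool.Agent.W608 Pool.Agent.W611

section

variable {K : Type} [Field K]

/-- Transport of a rank by a linear map. -/
theorem rkI_map {J J' : Ideal K[X][X]} {S S' : Set (ℕ × ℕ)} {n : ℕ}
    (ψ : K[X][X] →ₗ[K] K[X][X]) (h1 : ∀ f ∈ mspan K S, ψ f ∈ mspan K S')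
    (h2 : ∀ f ∈ mspan K S, ψ f ∈ J' → f ∈ J) (h : RkI J S n) : RkI J' S' n := by
  obtain ⟨v, hv, hli⟩ := h
  refine ⟨fun i => ψ (v i), fun i => h1 _ (hv i), fun c hc => hli c (h2 _ ?_ ?_)⟩
  · exact Submodule.sum_mem _ fun i _ => Submodule.smul_mem _ _ (hv i)
  · rw [map_sum]
    convert hc using 2 with i
    rw [map_smul]

/-- The exchange of the two variables. -/
theorem swap_mem {c b : K} {m : ℕ} {f : K[X][X]}
    (h : Bivariate.swap f ∈ cIdeal (fun _ : Fin 1 => b) (C c) m) :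
    f ∈ cIdeal (fun _ : Fin 1 => c) (C b) m := by
  have h1 : (cIdeal (fun _ : Fin 1 => b) (C c) m).map (Bivariate.swap (R := K)).toRingEquiv.toRingHom
      ≤ cIdeal (fun _ : Fin 1 => c) (C b) m := by
    unfold cIdeal
    rw [Ideal.map_pow]
    refine Ideal.pow_right_mono ?_ m
    rw [Ideal.map_span, Ideal.span_le]
    rintro _ ⟨g, hg, rfl⟩
    rcases hg with rfl | hg
    · have e : (Bivariate.swap (R := K)).toRingEquiv.toRingHom (X - C (C c) : K[X][X]) =
          C (X - C c) := by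
        change Bivariate.swap (X - C (C c) : K[X][X]) = _
        rw [map_sub, Bivariate.swap_Y, Bivariate.swap_C_C, C_sub]
      rw [e]
      refine Ideal.subset_span (Or.inr ?_)
      rw [Set.mem_singleton_iff, rootPoly_const, pow_one]
    · rw [Set.mem_singleton_iff] at hg
      subst hg
      have e : (Bivariate.swap (R := K)).toRingEquiv.toRingHom (C (X - C b) : K[X][X]) =
          X - C (C b) := by
        change Bivariate.swap (C (X - C b) : K[X][X]) = _
        rw [C_sub, map_sub, Bivariate.swap_X, Bivariate.swap_C_C]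
      rw [show (rootPoly fun _ : Fin 1 => b) = X - C b by rw [rootPoly_const, pow_one], e]
      exact Ideal.subset_span (Or.inl rfl)
  have h2 := h1 (Ideal.mem_map_of_mem _ h)
  have e : (Bivariate.swap (R := K)).toRingEquiv.toRingHom (Bivariate.swap f) = f :=
    Bivariate.swap_swap_apply f
  rwa [e] at h2

theorem swap_mspan {S : Set (ℕ × ℕ)} {f : K[X][X]} (hf : f ∈ mspan K S) :
    Bivariate.swap f ∈ mspan K {p | ((p.2, p.1) : ℕ × ℕ) ∈ S} := by
  unfold mspan at hf
  refine Submodule.span_induction (p := fun f _ => Bivariate.swap f ∈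
    mspan K {p | ((p.2, p.1) : ℕ × ℕ) ∈ S}) ?_ ?_ ?_ ?_ hf
  · rintro _ ⟨⟨i, l⟩, hp, rfl⟩
    refine Submodule.subset_span ⟨(l, i), hp, ?_⟩
    unfold mon
    simp only
    rw [map_mul, show (C (X ^ i : K[X]) : K[X][X]) = (C X) ^ i from C_pow,
      map_pow Bivariate.swap (C X : K[X][X]) i, Bivariate.swap_X,
      map_pow Bivariate.swap (X : K[X][X]) l, Bivariate.swap_Y, C_pow, mul_comm]
  · rw [map_zero]
    exact Submodule.zero_mem _
  · intro a b _ _ ha hb
    rw [map_add]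
    exact Submodule.add_mem _ ha hb
  · intro c a _ ha
    rw [map_smul]
    exact Submodule.smul_mem _ _ ha

/-- Reversal of the coefficients. -/
noncomputable def reflL (K : Type) [Field K] (n : ℕ) : K[X] →ₗ[K] K[X] where
  toFun := reflect n
  map_add' f g := reflect_add f g n
  map_smul' c f := by
    rw [smul_eq_C_mul, reflect_C_mul, RingHom.id_apply, smul_eq_C_mul]

/-- The inversion `f ↦ x ^ N * f (1 / x, y / x ^ s)`. -/
noncomputable def revL (K : Type) [Field K] (s N : ℕ) : K[X][X] →ₗ[K] K[X][X] :=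
  Polynomial.lsum fun l => ((Polynomial.monomial (R := K[X]) l).restrictScalars K).comp
    (reflL K (N - s * l))

theorem coeff_revL (s N : ℕ) (f : K[X][X]) (l : ℕ) :
    (revL K s N f).coeff l = reflect (N - s * l) (f.coeff l) := by
  have e : revL K s N f = f.sum fun l p => monomial l (reflect (N - s * l) p) := rfl
  rw [e, sum_def, finsetSum_coeff]
  simp only [coeff_monomial]
  rw [Finset.sum_ite_eq']
  split_ifs with h
  · rfl
  · rw [notMem_support_iff.1 h, reflect_zero]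

/-- The weight is at most `N`. -/
def Wt (s N : ℕ) (f : K[X][X]) : Prop := ∀ l, f.coeff l ≠ 0 → (f.coeff l).natDegree + s * l ≤ N

theorem Wt.mono {s N N' : ℕ} {f : K[X][X]} (h : Wt s N f) (hN : N ≤ N') : Wt s N' f :=
  fun l hl => (h l hl).trans hN

theorem exists_wt (s : ℕ) (f : K[X][X]) : ∃ N, Wt s N f := by
  refine ⟨f.support.sup fun l => (f.coeff l).natDegree + s * l, fun l hl => ?_⟩
  exact Finset.le_sup (f := fun l => (f.coeff l).natDegree + s * l) (mem_support_iff.2 hl)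

theorem revL_mul {s N₁ N₂ : ℕ} {f g : K[X][X]} (hf : Wt s N₁ f) (hg : Wt s N₂ g) :
    revL K s (N₁ + N₂) (f * g) = revL K s N₁ f * revL K s N₂ g := by
  refine Polynomial.ext fun l => ?_
  rw [coeff_revL, coeff_mul, coeff_mul]
  have h1 : reflect (N₁ + N₂ - s * l) (∑ x ∈ Finset.HasAntidiagonal.antidiagonal l, f.coeff x.1 * g.coeff x.2) =
      ∑ x ∈ Finset.HasAntidiagonal.antidiagonal l, reflect (N₁ + N₂ - s * l) (f.coeff x.1 * g.coeff x.2) :=
    map_sum (reflL K (N₁ + N₂ - s * l)) (fun x : ℕ × ℕ => f.coeff x.1 * g.coeff x.2)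
      (Finset.HasAntidiagonal.antidiagonal l)
  rw [h1]
  refine Finset.sum_congr rfl fun x hx => ?_
  rw [Finset.HasAntidiagonal.mem_antidiagonal] at hx
  rw [coeff_revL, coeff_revL]
  by_cases hf0 : f.coeff x.1 = 0
  · rw [hf0, zero_mul, reflect_zero, reflect_zero, zero_mul]
  by_cases hg0 : g.coeff x.2 = 0
  · rw [hg0, mul_zero, reflect_zero, reflect_zero, mul_zero]
  have h2 := hf _ hf0
  have h3 := hg _ hg0
  have h4 : s * l = s * x.1 + s * x.2 := by rw [← hx]; ring
  have h5 : N₁ + N₂ - s * l = (N₁ - s * x.1) + (N₂ - s * x.2) := by omega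
  rw [h5, reflect_mul _ _ (by omega) (by omega)]

/-- The ideal of the fat point with parabolic coordinate. -/
theorem gen_mem (s : ℕ) {c b : K} (hc : c ≠ 0) (m : ℕ) :
    ∀ f ∈ cIdeal (fun _ : Fin 1 => c⁻¹) (C b * X ^ s) m, ∃ N₀, ∀ N, N₀ ≤ N → Wt s N f ∧
      revL K s N f ∈ cIdeal (fun _ : Fin 1 => c) (C b) m := by
  have hI : ∀ (x : K) (γ : K[X]) (m : ℕ), cIdeal (fun _ : Fin 1 => x) γ m =
      (Ideal.span {X - C γ, C (X - C x)}) ^ m := fun x γ m => by simp [cIdeal, rootPoly_const]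
  rw [hI, hI]
  obtain ⟨I, hId⟩ : ∃ I : Ideal K[X][X], I = Ideal.span {X - C (C b), C (X - C c)} := ⟨_, rfl⟩
  obtain ⟨I', hId'⟩ : ∃ I' : Ideal K[X][X],
    I' = Ideal.span {X - C (C b * X ^ s), C (X - C c⁻¹)} := ⟨_, rfl⟩
  rw [← hId, ← hId']
  -- the generators
  have hg1 : Wt s s (X - C (C b * X ^ s) : K[X][X]) := by
    intro l hl
    rcases l with _ | _ | l
    · rw [coeff_sub, coeff_X_zero, coeff_C_zero, zero_sub, natDegree_neg]
      have := natDegree_C_mul_X_pow_le b s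
      omega
    · rw [coeff_sub, coeff_X_one, coeff_C_succ, sub_zero, natDegree_one]
      omega
    · exfalso
      apply hl
      rw [coeff_sub, coeff_X_of_ne_one (by omega), coeff_C_succ, sub_zero]
  have hg1' : revL K s s (X - C (C b * X ^ s) : K[X][X]) = X - C (C b) := by
    refine Polynomial.ext fun l => ?_
    rw [coeff_revL]
    rcases l with _ | _ | l
    · rw [coeff_sub, coeff_X_zero, coeff_C_zero, zero_sub, coeff_sub, coeff_X_zero, coeff_C_zero,
        zero_sub, mul_zero, Nat.sub_zero]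
      have h1 : reflect s (-(C b * X ^ s)) = - reflect s (C b * X ^ s) := map_neg (reflL K s) _
      rw [h1, reflect_C_mul_X_pow, revAt_le le_rfl, Nat.sub_self, pow_zero, mul_one]
    · rw [coeff_sub, coeff_X_one, coeff_C_succ, sub_zero, coeff_sub, coeff_X_one, coeff_C_succ,
        sub_zero, reflect_one]
      simp
    · rw [coeff_sub, coeff_X_of_ne_one (by omega), coeff_C_succ, sub_zero, reflect_zero, coeff_sub,
        coeff_X_of_ne_one (by omega), coeff_C_succ, sub_zero]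
  have hg2 : Wt s 1 (C (X - C c⁻¹) : K[X][X]) := by
    intro l hl
    rcases l with _ | l
    · rw [coeff_C_zero, natDegree_X_sub_C]
      omega
    · exfalso
      apply hl
      rw [coeff_C_succ]
  have hg2' : revL K s 1 (C (X - C c⁻¹) : K[X][X]) = C (C (- c⁻¹)) * C (X - C c) := by
    refine Polynomial.ext fun l => ?_
    rw [coeff_revL, ← C_mul]
    rcases l with _ | l
    · rw [coeff_C_zero, coeff_C_zero, mul_zero, Nat.sub_zero]
      have h1 : reflect 1 (X - C c⁻¹ : K[X]) = reflect 1 X - reflect 1 (C c⁻¹) :=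
        map_sub (reflL K 1) _ _
      rw [h1, reflect_one_X, reflect_C, pow_one, mul_sub, ← C_mul, neg_mul, inv_mul_cancel₀ hc]
      simp only [map_neg, C_1]
      ring
    · rw [coeff_C_succ, coeff_C_succ, reflect_zero]
  have hadd : ∀ (J : Ideal K[X][X]) (f g : K[X][X]),
      (∃ N₀, ∀ N, N₀ ≤ N → Wt s N f ∧ revL K s N f ∈ J) →
      (∃ N₀, ∀ N, N₀ ≤ N → Wt s N g ∧ revL K s N g ∈ J) →
      ∃ N₀, ∀ N, N₀ ≤ N → Wt s N (f + g) ∧ revL K s N (f + g) ∈ J := by
    rintro J f g ⟨a, ha⟩ ⟨b, hb⟩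
    refine ⟨a + b, fun N hN => ⟨?_, ?_⟩⟩
    · intro l hl
      rw [coeff_add] at hl ⊢
      have h1 := natDegree_add_le (f.coeff l) (g.coeff l)
      have h2 := (ha N (by omega)).1 l
      have h3 := (hb N (by omega)).1 l
      by_cases hf : f.coeff l = 0
      · by_cases hg : g.coeff l = 0
        · rw [hf, hg, add_zero] at hl
          exact absurd rfl hl
        · rw [hf, zero_add]
          exact h3 hg
      · by_cases hg : g.coeff l = 0
        · rw [hg, add_zero]
          exact h2 hf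
        · have h4 := h2 hf
          have h5 := h3 hg
          have := max_le (a := (f.coeff l).natDegree) (b := (g.coeff l).natDegree)
            (c := N - s * l) (by omega) (by omega)
          omega
    · rw [map_add]
      exact Ideal.add_mem _ (ha N (by omega)).2 (hb N (by omega)).2
  have hmul : ∀ (J₁ J₂ : Ideal K[X][X]) (f g : K[X][X]),
      (∃ N₀, ∀ N, N₀ ≤ N → Wt s N f ∧ revL K s N f ∈ J₁) →
      (∃ N₀, ∀ N, N₀ ≤ N → Wt s N g ∧ revL K s N g ∈ J₂) →
      ∃ N₀, ∀ N, N₀ ≤ N → Wt s N (f * g) ∧ revL K s N (f * g) ∈ J₁ * J₂ := by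
    rintro J₁ J₂ f g ⟨a, ha⟩ ⟨b, hb⟩
    refine ⟨a + b, fun N hN => ?_⟩
    obtain ⟨N', rfl⟩ : ∃ N', N = a + N' := Nat.exists_eq_add_of_le (by omega)
    have h1 := ha a le_rfl
    have h2 := hb N' (by omega)
    refine ⟨?_, ?_⟩
    · intro l hl
      rw [coeff_mul] at hl ⊢
      have h3 : (∑ x ∈ Finset.HasAntidiagonal.antidiagonal l, f.coeff x.1 * g.coeff x.2).natDegree ≤
          a + N' - s * l := by
        refine natDegree_sum_le_of_forall_le _ _ fun x hx => ?_
        rw [Finset.HasAntidiagonal.mem_antidiagonal] at hx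
        by_cases hf0 : f.coeff x.1 = 0
        · rw [hf0, zero_mul, natDegree_zero]
          omega
        by_cases hg0 : g.coeff x.2 = 0
        · rw [hg0, mul_zero, natDegree_zero]
          omega
        have h4 := h1.1 _ hf0
        have h5 := h2.1 _ hg0
        have h6 := natDegree_mul_le (p := f.coeff x.1) (q := g.coeff x.2)
        have h7 : s * l = s * x.1 + s * x.2 := by rw [← hx]; ring
        omega
      obtain ⟨x, hx, hx0⟩ := Finset.exists_ne_zero_of_sum_ne_zero hl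
      rw [Finset.HasAntidiagonal.mem_antidiagonal] at hx
      have h4 := h1.1 _ (left_ne_zero_of_mul hx0)
      have h5 := h2.1 _ (right_ne_zero_of_mul hx0)
      have h7 : s * l = s * x.1 + s * x.2 := by rw [← hx]; ring
      omega
    · rw [revL_mul h1.1 h2.1]
      exact Ideal.mul_mem_mul h1.2 h2.2
  have hany : ∀ f : K[X][X], ∃ N₀, ∀ N, N₀ ≤ N → Wt s N f ∧ revL K s N f ∈ (⊤ : Ideal K[X][X]) :=
    fun f => by
      obtain ⟨N₀, hN₀⟩ := exists_wt s f
      exact ⟨N₀, fun N hN => ⟨hN₀.mono hN, trivial⟩⟩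
  -- multiples of an element of fixed weight
  have hgen : ∀ (g g' : K[X][X]) (e : ℕ), Wt s e g → revL K s e g = g' → g' ∈ I →
      ∀ u : K[X][X], ∃ N₀, ∀ N, N₀ ≤ N → Wt s N (u * g) ∧ revL K s N (u * g) ∈ I := by
    intro g g' e hw hr hgI u
    obtain ⟨a, ha⟩ := exists_wt s u
    refine ⟨a + e, fun N hN => ?_⟩
    obtain ⟨N', rfl⟩ : ∃ N', N = N' + e := ⟨N - e, by omega⟩
    have h1 := ha.mono (show a ≤ N' by omega)
    refine ⟨?_, ?_⟩
    · intro l hl
      rw [coeff_mul] at hl ⊢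
      have h3 : (∑ x ∈ Finset.HasAntidiagonal.antidiagonal l, u.coeff x.1 * g.coeff x.2).natDegree ≤
          N' + e - s * l := by
        refine natDegree_sum_le_of_forall_le _ _ fun x hx => ?_
        rw [Finset.HasAntidiagonal.mem_antidiagonal] at hx
        by_cases hf0 : u.coeff x.1 = 0
        · rw [hf0, zero_mul, natDegree_zero]
          omega
        by_cases hg0 : g.coeff x.2 = 0
        · rw [hg0, mul_zero, natDegree_zero]
          omega
        have h4 := h1 _ hf0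
        have h5 := hw _ hg0
        have h6 := natDegree_mul_le (p := u.coeff x.1) (q := g.coeff x.2)
        have h7 : s * l = s * x.1 + s * x.2 := by rw [← hx]; ring
        omega
      obtain ⟨x, hx, hx0⟩ := Finset.exists_ne_zero_of_sum_ne_zero hl
      rw [Finset.HasAntidiagonal.mem_antidiagonal] at hx
      have h4 := h1 _ (left_ne_zero_of_mul hx0)
      have h5 := hw _ (right_ne_zero_of_mul hx0)
      have h7 : s * l = s * x.1 + s * x.2 := by rw [← hx]; ring
      omega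
    · rw [revL_mul h1 hw, hr]
      exact Ideal.mul_mem_left _ _ hgI
  have hI1 : ∀ f ∈ I', ∃ N₀, ∀ N, N₀ ≤ N → Wt s N f ∧ revL K s N f ∈ I := by
    intro f hf
    rw [hId'] at hf
    obtain ⟨u, v, rfl⟩ := Ideal.mem_span_pair.1 hf
    refine hadd I _ _ ?_ ?_
    · refine hgen _ _ s hg1 hg1' ?_ u
      rw [hId]
      exact Ideal.subset_span (Or.inl rfl)
    · refine hgen _ _ 1 hg2 hg2' ?_ v
      rw [hId]
      exact Ideal.mul_mem_left _ _ (Ideal.subset_span (Or.inr rfl))
  induction m with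
  | zero =>
    intro f _
    rw [Submodule.pow_zero, Ideal.one_eq_top]
    exact hany f
  | succ m ih =>
    intro f hf
    rw [Ideal.IsTwoSided.pow_succ] at hf
    refine Submodule.mul_induction_on hf (fun a ha b hb => ?_) (fun a b ha hb => hadd _ _ _ ha hb)
    rw [Ideal.IsTwoSided.pow_succ]
    exact hmul I (I ^ m) a b (hI1 a ha) (ih b hb)

theorem revL_mem (s : ℕ) {c b : K} (hc : c ≠ 0) (m N : ℕ) {f : K[X][X]} (hw : Wt s N f)
    (hf : f ∈ cIdeal (fun _ : Fin 1 => c⁻¹) (C b * X ^ s) m) :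
    revL K s N f ∈ cIdeal (fun _ : Fin 1 => c) (C b) m := by
  obtain ⟨N₀, hN₀⟩ := gen_mem s hc m f hf
  have h1 := (hN₀ (N + N₀) (by omega)).2
  have h2 : revL K s (N + N₀) f = C ((X : K[X]) ^ N₀) * revL K s N f := by
    refine Polynomial.ext fun l => ?_
    rw [coeff_revL, coeff_C_mul, coeff_revL]
    by_cases h0 : f.coeff l = 0
    · rw [h0, reflect_zero, reflect_zero, mul_zero]
    · have h3 := hw l h0
      have h4 : N + N₀ - s * l = (N - s * l) + N₀ := by omega
      have h5 := reflect_mul (f.coeff l) 1 (F := N - s * l) (G := N₀) (by omega)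
        (by rw [natDegree_one]; omega)
      rw [mul_one, reflect_one] at h5
      rw [h4, h5, mul_comm]
  rw [h2] at h1
  exact T_UNIT K c (C b) X m N₀ _ (by rwa [eval_X]) h1

theorem revL_revL (s N : ℕ) (f : K[X][X]) : revL K s N (revL K s N f) = f := by
  refine Polynomial.ext fun l => ?_
  rw [coeff_revL, coeff_revL, reflect_reflect]

theorem wt_of_mspan {s N : ℕ} {S : Set (ℕ × ℕ)} (hS : ∀ p ∈ S, p.1 + s * p.2 ≤ N)
    {f : K[X][X]} (hf : f ∈ mspan K S) : Wt s N f := by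
  rw [BLOCKh.mem_mspan_coeff] at hf
  intro l hl
  have h1 : (f.coeff l).coeff (f.coeff l).natDegree ≠ 0 := by
    rwa [coeff_natDegree, ne_eq, leadingCoeff_eq_zero]
  exact hS _ (hf _ _ h1)

theorem revL_mspan {s N : ℕ} {S : Set (ℕ × ℕ)} (hS : ∀ p ∈ S, p.1 + s * p.2 ≤ N)
    {f : K[X][X]} (hf : f ∈ mspan K S) :
    revL K s N f ∈ mspan K {p | p.1 + s * p.2 ≤ N ∧ ((N - s * p.2 - p.1, p.2) : ℕ × ℕ) ∈ S} := by
  rw [BLOCKh.mem_mspan_coeff] at hf ⊢
  intro i l h
  rw [coeff_revL, coeff_reflect] at h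
  have h1 := hf _ _ h
  have h2 := hS _ h1
  simp only at h2
  rcases Nat.lt_or_ge (N - s * l) i with h3 | h3
  · rw [revAt_eq_self_of_lt h3] at h2
    omega
  · rw [revAt_le h3] at h1 h2
    refine ⟨?_, h1⟩
    simp only
    omega

end

/-- General points. -/
theorem generic {ι : Type} [Fintype ι] {w : ι → ℕ} {S : Set (ℕ × ℕ)} {N : ℕ}
    (h : RkS (PF ℚ w) S N) : ∃ c b : ι → ℚ, (∀ a, c a ≠ 0) ∧ (∀ a, b a ≠ 0) ∧
      RkI (vIdeal 1 w c (fun a => C (b a))) S N := by
  classical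
  obtain ⟨e⟩ : Nonempty (ι ≃ Fin (Fintype.card ι)) := ⟨Fintype.equivFin ι⟩
  have h' : RkS (PF ℚ (fun i => w (e.symm i))) S N := by
    obtain ⟨_, ⟨c, γ, rfl⟩, h⟩ := h
    refine ⟨_, ⟨fun i => c (e.symm i), fun i => γ (e.symm i), rfl⟩, ?_⟩
    refine h.anti ?_
    unfold vIdeal
    refine le_iInf fun a => ?_
    refine iInf_le_of_le (e a) ?_
    beta_reduce
    rw [e.symm_apply_apply]
  obtain ⟨F, hF, hF'⟩ := T_HOP ℚ _ _ _ _ h'
  obtain ⟨G, hG⟩ : ∃ G : MvPolynomial (Fin (Fintype.card ι) × Fin 2) ℚ,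
    G = ∏ ij, MvPolynomial.X ij := ⟨_, rfl⟩
  have hG0 : G ≠ 0 := by
    rw [hG]
    exact Finset.prod_ne_zero_iff.2 fun ij _ => MvPolynomial.X_ne_zero ij
  obtain ⟨P, hP⟩ : ∃ P : Fin (Fintype.card ι) × Fin 2 → ℚ, MvPolynomial.aeval P (F * G) ≠ 0 := by
    by_contra hcon
    push Not at hcon
    refine mul_ne_zero hF hG0 (MvPolynomial.funext fun x => ?_)
    rw [map_zero]
    have := hcon x
    rwa [MvPolynomial.aeval_eq_eval] at this
  rw [map_mul] at hP
  have h3 := hF' P (left_ne_zero_of_mul hP)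
  have h4 := right_ne_zero_of_mul hP
  rw [hG, map_prod] at h4
  have h5 : ∀ ij, P ij ≠ 0 := fun ij => by
    have := Finset.prod_ne_zero_iff.1 h4 ij (Finset.mem_univ _)
    rwa [MvPolynomial.aeval_X] at this
  refine ⟨fun a => P (e a, 0), fun a => P (e a, 1), fun a => h5 _, fun a => h5 _, h3.anti ?_⟩
  unfold vIdeal
  refine le_iInf fun i => ?_
  refine iInf_le_of_le (e.symm i) ?_
  beta_reduce
  rw [e.apply_symm_apply]

/-- The exchange of the variables. -/
theorem rkS_swap {ι : Type} [Fintype ι] {w : ι → ℕ} {S : Set (ℕ × ℕ)} {n : ℕ}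
    (h : RkS (PF ℚ w) S n) : RkS (PF ℚ w) {p | ((p.2, p.1) : ℕ × ℕ) ∈ S} n := by
  obtain ⟨c, b, _, _, hR⟩ := generic h
  refine ⟨_, ⟨b, fun a => C (c a), rfl⟩, rkI_map
    (Bivariate.swap (R := ℚ)).toLinearEquiv.toLinearMap (fun f hf => swap_mspan hf)
    (fun f _ hfJ => ?_) hR⟩
  unfold vIdeal at hfJ ⊢
  rw [Ideal.mem_iInf] at hfJ ⊢
  exact fun a => swap_mem (hfJ a)

/-- The inversion of the first variable. -/
theorem rkS_rev {ι : Type} [Fintype ι] {w : ι → ℕ} {S : Set (ℕ × ℕ)} {n : ℕ} (s N : ℕ)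
    (hS : ∀ p ∈ S, p.1 + s * p.2 ≤ N) (h : RkS (PF ℚ w) S n) :
    RkS (PF ℚ w) {p | p.1 + s * p.2 ≤ N ∧ ((N - s * p.2 - p.1, p.2) : ℕ × ℕ) ∈ S} n := by
  obtain ⟨c, b, hc, _, hR⟩ := generic h
  refine ⟨_, ⟨fun a => (c a)⁻¹, fun a => C (b a) * X ^ s, rfl⟩, rkI_map (revL ℚ s N)
    (fun f hf => revL_mspan hS hf) (fun f hf hfJ => ?_) hR⟩
  unfold vIdeal at hfJ ⊢
  rw [Ideal.mem_iInf] at hfJ ⊢
  intro a
  have h1 : Wt s N (revL ℚ s N f) :=
    wt_of_mspan (fun p hp => hp.1) (revL_mspan hS hf)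
  have h2 := revL_mem s (hc a) (w a) N h1 (hfJ a)
  rwa [revL_revL] at h2

end Pool.Agent.W609.T
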