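import Mathlib
import Pool.Agent.H15.G.R_seed8.W609.T.Rev

set_option autoImplicit false

/-!
# Adding and removing points of large multiplicity
-/

namespace Pool.Agent.W609.T

open Polynomial Pool.Agent.H932R2 Pool.Agent.H932R3 Pool.Agent.H932R7
open Pool.Agent.W608 Pool.Agent.W611

section
variable {K : Type} [Field K]

theorem origin_iff {M : ℕ} {f : K[X][X]} :
    f ∈ cIdeal (fun _ : Fin 1 => (0 : K)) 0 M ↔ ∀ i l, i + l < M → (f.coeff l).coeff i = 0 := by
  rw [mem_cIdeal_iff, sh_zero_zero]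
  constructor
  · intro h i l hil
    exact h l (by omega) i (by omega)
  · intro h l _ i hi
    exact h i l (by omega)

theorem mem_origin {Q : Finset (ℕ × ℕ)} {M : ℕ} {f : K[X][X]}
    (hf : f ∈ mspan K (↑Q : Set (ℕ × ℕ))) (h0 : f ∈ cIdeal (fun _ : Fin 1 => (0 : K)) 0 M) :
    f ∈ mspan K (↑(Q.filter fun p => M ≤ p.1 + p.2) : Set (ℕ × ℕ)) := by
  rw [BLOCKh.mem_mspan_coeff] at hf ⊢
  rw [origin_iff] at h0
  intro i l hil
  rw [Finset.mem_coe, Finset.mem_filter]
  refine ⟨hf i l hil, ?_⟩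
  by_contra h
  exact hil (h0 i l (not_le.1 h))

theorem origin_mem {Q : Finset (ℕ × ℕ)} {M : ℕ} {f : K[X][X]}
    (hf : f ∈ mspan K (↑(Q.filter fun p => M ≤ p.1 + p.2) : Set (ℕ × ℕ))) :
    f ∈ mspan K (↑Q : Set (ℕ × ℕ)) ∧ f ∈ cIdeal (fun _ : Fin 1 => (0 : K)) 0 M := by
  rw [BLOCKh.mem_mspan_coeff] at hf ⊢
  rw [origin_iff]
  refine ⟨fun i l h => ?_, fun i l h => ?_⟩
  · have h1 := hf i l h
    rw [Finset.mem_coe, Finset.mem_filter] at h1
    exact h1.1
  · by_contra h0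
    have h1 := hf i l h0
    rw [Finset.mem_coe, Finset.mem_filter] at h1
    have h2 := h1.2
    simp only at h2
    omega

theorem fin_inf (Q : Finset (ℕ × ℕ)) (J : Ideal K[X][X]) :
    Module.Finite K ↥(mspan K (↑Q : Set (ℕ × ℕ)) ⊓ Submodule.restrictScalars K J) := by
  have hfin : Module.Finite K ↥(mspan K (↑Q : Set (ℕ × ℕ))) := by
    refine Module.Finite.iff_fg.2 (Submodule.fg_span ?_)
    exact (Q.finite_toSet).image _
  exact Submodule.finiteDimensional_of_le inf_le_left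

theorem card_low_le (Q : Finset (ℕ × ℕ)) (M : ℕ) :
    (Q.filter fun p => ¬ M ≤ p.1 + p.2).card ≤ (M + 1).choose 2 := by
  rcases Nat.eq_zero_or_pos M with h | h
  · subst h
    rw [Finset.filter_false_of_mem]
    · simp
    · intro p _
      omega
  · have h1 : (Q.filter fun p => ¬ M ≤ p.1 + p.2) ⊆ Tfin (M - 1) := by
      rintro ⟨i, l⟩ hp
      rw [Finset.mem_filter] at hp
      have h2 : ((i, l) : ℕ × ℕ) ∈ (↑(Tfin (M - 1)) : Set (ℕ × ℕ)) := by
        rw [coe_Tfin, mem_Tset]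
        have := hp.2
        simp only at this
        omega
      exact h2
    have h2 := Finset.card_le_card h1
    have h3 := card_Tfin (M - 1)
    have h4 := R4h.two_choose M
    have h5 : (M - 1 + 1) * (M - 1 + 2) = M * (M + 1) := by
      congr 1 <;> omega
    omega

theorem card_low_ge (Q : Finset (ℕ × ℕ)) (M : ℕ) (h : ∀ i l, i + l < M → ((i, l) : ℕ × ℕ) ∈ Q) :
    (M + 1).choose 2 ≤ (Q.filter fun p => ¬ M ≤ p.1 + p.2).card := by
  rcases Nat.eq_zero_or_pos M with h0 | h0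
  · subst h0
    simp
  · have h1 : Tfin (M - 1) ⊆ (Q.filter fun p => ¬ M ≤ p.1 + p.2) := by
      rintro ⟨i, l⟩ hp
      have h2 : ((i, l) : ℕ × ℕ) ∈ (↑(Tfin (M - 1)) : Set (ℕ × ℕ)) := hp
      rw [coe_Tfin, mem_Tset] at h2
      rw [Finset.mem_filter]
      refine ⟨h i l (by omega), ?_⟩
      simp only
      omega
    have h2 := Finset.card_le_card h1
    have h3 := card_Tfin (M - 1)
    have h4 := R4h.two_choose M
    have h5 : (M - 1 + 1) * (M - 1 + 2) = M * (M + 1) := by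
      congr 1 <;> omega
    omega

/-- Adding a point of multiplicity `M`. -/
theorem corner_add {ι : Type} {M N : ℕ} {w : ι → ℕ} (Q : Finset (ℕ × ℕ))
    (hQ : ∀ i l, i + l < M → ((i, l) : ℕ × ℕ) ∈ Q)
    (h : RkS (PF K w) (↑(Q.filter fun p => M ≤ p.1 + p.2) : Set (ℕ × ℕ)) N) :
    RkS (PF K (ov M w)) (↑Q : Set (ℕ × ℕ)) (N + (M + 1).choose 2) := by
  classical
  obtain ⟨J, ⟨c, γ, rfl⟩, hR⟩ := h
  refine ⟨_, ⟨fun o => o.elim 0 c, fun o => o.elim 0 γ, rfl⟩, ?_⟩
  rw [T_RK] at hR ⊢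
  have hle : mspan K (↑Q : Set (ℕ × ℕ)) ⊓ Submodule.restrictScalars K
      (vIdeal 1 (ov M w) (fun o => o.elim 0 c) (fun o => o.elim 0 γ)) ≤
      mspan K (↑(Q.filter fun p => M ≤ p.1 + p.2) : Set (ℕ × ℕ)) ⊓
        Submodule.restrictScalars K (vIdeal 1 w c γ) := by
    intro f hf
    rw [Submodule.mem_inf, Submodule.restrictScalars_mem] at hf ⊢
    obtain ⟨hf1, hf2⟩ := hf
    unfold vIdeal at hf2 ⊢
    rw [Ideal.mem_iInf] at hf2 ⊢
    exact ⟨mem_origin hf1 (hf2 none), fun a => hf2 (some a)⟩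
  have hfin2 := fin_inf (Q.filter fun p => M ≤ p.1 + p.2) (vIdeal 1 w c γ)
  have h1 := Submodule.finrank_mono hle
  have h2 := Finset.card_filter_add_card_filter_not (s := Q) (fun p => M ≤ p.1 + p.2)
  have h3 := card_low_ge Q M hQ
  omega

/-- The translation as a linear map. -/
noncomputable def shL (c b : K) : K[X][X] →ₗ[K] K[X][X] where
  toFun := sh c (C b)
  map_add' f g := map_add _ f g
  map_smul' a f := by
    have h1 : a • f = C (C a) * f := by
      rw [Algebra.smul_def]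
      rfl
    have h2 : a • sh c (C b) f = C (C a) * sh c (C b) f := by
      rw [Algebra.smul_def]
      rfl
    rw [RingHom.id_apply, h1, h2, map_mul, sh_C, C_comp]

theorem shL_apply (c b : K) (f : K[X][X]) : shL c b f = sh c (C b) f := rfl

theorem sh_mem {c b c' b' : K} {m : ℕ} {f : K[X][X]}
    (h : f ∈ cIdeal (fun _ : Fin 1 => c') (C b') m) :
    sh c (C b) f ∈ cIdeal (fun _ : Fin 1 => c' - c) (C (b' - b)) m := by
  have h1 : (cIdeal (fun _ : Fin 1 => c') (C b') m).map (sh c (C b)) ≤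
      cIdeal (fun _ : Fin 1 => c' - c) (C (b' - b)) m := by
    unfold cIdeal
    rw [Ideal.map_pow]
    refine Ideal.pow_right_mono ?_ m
    rw [Ideal.map_span, Ideal.span_le]
    rintro _ ⟨g, hg, rfl⟩
    rcases hg with rfl | hg
    · have e : sh c (C b) (X - C (C b')) = X - C (C (b' - b)) := by
        rw [map_sub, sh_X, sh_C, C_comp, C_comp, C_sub, C_sub]
        ring
      rw [e]
      exact Ideal.subset_span (Or.inl rfl)
    · rw [Set.mem_singleton_iff] at hg
      subst hg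
      rw [rootPoly_const, rootPoly_const, pow_one, pow_one]
      have e : sh c (C b) (C (X - C c')) = C (X - C (c' - c)) := by
        have e' : (X + C c - C c' : K[X]) = X - C (c' - c) := by
          rw [C_sub (a := c')]
          ring
        rw [sh_C, sub_comp, X_comp, C_comp, e']
      rw [e]
      exact Ideal.subset_span (Or.inr rfl)
  exact h1 (Ideal.mem_map_of_mem _ h)

theorem sh_mem_rev {c b c' b' : K} {m : ℕ} {f : K[X][X]}
    (h : sh c (C b) f ∈ cIdeal (fun _ : Fin 1 => c' - c) (C (b' - b)) m) :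
    f ∈ cIdeal (fun _ : Fin 1 => c') (C b') m := by
  have h1 := sh_mem (c := -c) (b := -b) h
  have h2 := sh_sh c (C b) f
  rw [C_comp, ← C_neg] at h2
  rw [h2] at h1
  have e1 : c' - c - -c = c' := by ring
  have e2 : b' - b - -b = b' := by ring
  rwa [e1, e2] at h1

theorem sh_rect {A B : ℕ} {c b : K} {f : K[X][X]} (hf : f ∈ mspan K {p | p.1 < A ∧ p.2 < B}) :
    shL c b f ∈ mspan K {p | p.1 < A ∧ p.2 < B} := by
  unfold mspan at hf
  refine Submodule.span_induction (p := fun f _ => shL c b f ∈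
    mspan K {p | p.1 < A ∧ p.2 < B}) ?_ ?_ ?_ ?_ hf
  · rintro _ ⟨⟨i, l⟩, hp, rfl⟩
    simp only [Set.mem_ofPred_eq] at hp
    rw [BLOCKh.mem_mspan_coeff]
    intro i' l' h
    have e0 : shL c b (mon K (i, l)) = C ((X + C c) ^ i) * (X + C (C b)) ^ l := by
      unfold mon
      simp only
      rw [shL_apply, map_mul, map_pow (sh c (C b)) X l, sh_X, C_comp, sh_C, X_pow_comp]
    rw [e0, coeff_C_mul, coeff_X_add_C_pow] at h
    have h1 : l' ≤ l := by
      by_contra hcon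
      rw [Nat.choose_eq_zero_of_lt (not_le.1 hcon)] at h
      exact h (by simp)
    have h2 : i' ≤ i := by
      by_contra hcon
      refine h ?_
      have e : (C b ^ (l - l') * ((l.choose l' : ℕ) : K[X])) =
          C (b ^ (l - l') * ((l.choose l' : ℕ) : K)) := by
        rw [C_mul, C_pow]
        congr 1
      rw [e, coeff_mul_C, coeff_X_add_C_pow, Nat.choose_eq_zero_of_lt (not_le.1 hcon)]
      simp
    simp only [Set.mem_ofPred_eq]
    omega
  · rw [map_zero]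
    exact Submodule.zero_mem _
  · intro f g _ _ hf hg
    rw [map_add]
    exact Submodule.add_mem _ hf hg
  · intro a f _ hf
    rw [map_smul]
    exact Submodule.smul_mem _ _ hf

end

/-- Removing a point of multiplicity `y`. -/
theorem corner_remove {ι : Type} [Fintype ι] {y N A B : ℕ} {w : ι → ℕ}
    (h : RkS (PF ℚ (ov y w)) {p | p.1 < A ∧ p.2 < B} (N + (y + 1).choose 2)) :
    RkS (PF ℚ w) {p | p.1 < A ∧ p.2 < B ∧ y ≤ p.1 + p.2} N := by
  classical
  obtain ⟨c, b, _, _, hR⟩ := generic h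
  obtain ⟨c₀, hc₀⟩ : ∃ c₀, c₀ = c none := ⟨_, rfl⟩
  obtain ⟨b₀, hb₀⟩ : ∃ b₀, b₀ = b none := ⟨_, rfl⟩
  have hR2 : RkI (vIdeal 1 (ov y w) (fun a => c a - c₀) (fun a => C (b a - b₀)))
      {p | p.1 < A ∧ p.2 < B} (N + (y + 1).choose 2) := by
    refine rkI_map (shL c₀ b₀) (fun f hf => sh_rect hf) (fun f _ hf => ?_) hR
    unfold vIdeal at hf ⊢
    rw [Ideal.mem_iInf] at hf ⊢
    exact fun a => sh_mem_rev (hf a)
  obtain ⟨Q, hQ⟩ : ∃ Q : Finset (ℕ × ℕ), Q = Finset.range A ×ˢ Finset.range B := ⟨_, rfl⟩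
  have hQc : (↑Q : Set (ℕ × ℕ)) = {p | p.1 < A ∧ p.2 < B} := by
    ext ⟨i, l⟩
    rw [hQ, Finset.mem_coe, Finset.mem_product, Finset.mem_range, Finset.mem_range]
    rfl
  have hQy : (↑(Q.filter fun p => y ≤ p.1 + p.2) : Set (ℕ × ℕ)) =
      {p | p.1 < A ∧ p.2 < B ∧ y ≤ p.1 + p.2} := by
    ext ⟨i, l⟩
    rw [Finset.mem_coe, Finset.mem_filter, hQ, Finset.mem_product, Finset.mem_range,
      Finset.mem_range, and_assoc]
    rfl
  rw [← hQy]
  rw [← hQc] at hR2
  refine ⟨_, ⟨fun a => c (some a) - c₀, fun a => C (b (some a) - b₀), rfl⟩, ?_⟩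
  rw [T_RK] at hR2 ⊢
  have hle : mspan ℚ (↑(Q.filter fun p => y ≤ p.1 + p.2) : Set (ℕ × ℕ)) ⊓
      Submodule.restrictScalars ℚ (vIdeal 1 w (fun a => c (some a) - c₀)
        (fun a => C (b (some a) - b₀))) ≤
      mspan ℚ (↑Q : Set (ℕ × ℕ)) ⊓ Submodule.restrictScalars ℚ
        (vIdeal 1 (ov y w) (fun a => c a - c₀) (fun a => C (b a - b₀))) := by
    intro f hf
    rw [Submodule.mem_inf, Submodule.restrictScalars_mem] at hf ⊢
    obtain ⟨hf1, hf2⟩ := hf
    obtain ⟨hf3, hf4⟩ := origin_mem hf1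
    refine ⟨hf3, ?_⟩
    unfold vIdeal at hf2 ⊢
    rw [Ideal.mem_iInf] at hf2 ⊢
    intro a
    rcases a with _ | a
    · have e1 : c none - c₀ = 0 := by rw [hc₀, sub_self]
      have e2 : b none - b₀ = 0 := by rw [hb₀, sub_self]
      beta_reduce
      rw [e1, e2, C_0]
      exact hf4
    · exact hf2 a
  have hfin2 := fin_inf Q (vIdeal 1 (ov y w) (fun a => c a - c₀) (fun a => C (b a - b₀)))
  have h1 := Submodule.finrank_mono hle
  have h2 := Finset.card_filter_add_card_filter_not (s := Q) (fun p => y ≤ p.1 + p.2)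
  have h3 := card_low_le Q y
  omega

/-- Reindexing. -/
theorem rkS_reindex {ι ι' : Type} {w : ι → ℕ} {w' : ι' → ℕ} {T : Set (ℕ × ℕ)} {N : ℕ}
    (f : ι → ι') (g : ι' → ι) (hgf : ∀ a, g (f a) = a) (hw : ∀ a, w' (f a) = w a)
    (h : RkS (PF ℚ w) T N) : RkS (PF ℚ w') T N := by
  obtain ⟨_, ⟨c, γ, rfl⟩, hR⟩ := h
  refine ⟨_, ⟨fun a => c (g a), fun a => γ (g a), rfl⟩, hR.anti ?_⟩
  unfold vIdeal
  refine le_iInf fun a => iInf_le_of_le (f a) ?_
  beta_reduce
  rw [hgf, hw]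

end Pool.Agent.W609.T
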