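import Mathlib
import Pool.Agent.H15.G.R_seed8.W609.T.Corner

set_option autoImplicit false

/-!
# Transport of ranks between polygons with two or three cut corners
-/

namespace Pool.Agent.W609.T

open Polynomial Pool.Agent.H932R2 Pool.Agent.H932R3 Pool.Agent.H932R7
open Pool.Agent.W608 Pool.Agent.W611

variable {ι : Type} [Fintype ι] {w : ι → ℕ}

theorem mem_Tfin {d i l : ℕ} : ((i, l) : ℕ × ℕ) ∈ Tfin d ↔ i + l ≤ d := by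
  rw [← Finset.mem_coe, coe_Tfin, mem_Tset]

/-- Adding the points at infinity. -/
theorem bridge2 {d M1 M2 N : ℕ} (h12 : M1 + M2 ≤ d + 1)
    (h : RkS (PF ℚ w) {p | p.1 + M1 ≤ d ∧ p.2 + M2 ≤ d ∧ p.1 + p.2 ≤ d} N) :
    RkS (PF ℚ (ov M2 (ov M1 w))) (Tset d) (N + (M1 + 1).choose 2 + (M2 + 1).choose 2) := by
  have h1 := rkS_rev 1 d (fun p hp => by
    have := hp.2.2
    omega) h
  obtain ⟨Q, hQ⟩ : ∃ Q : Finset (ℕ × ℕ), Q = (Tfin d).filter fun p => p.2 + M2 ≤ d := ⟨_, rfl⟩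
  have hQm : ∀ i l, ((i, l) : ℕ × ℕ) ∈ Q ↔ i + l ≤ d ∧ l + M2 ≤ d := fun i l => by
    rw [hQ, Finset.mem_filter, mem_Tfin]
  have h2 : RkS (PF ℚ w) (↑(Q.filter fun p => M1 ≤ p.1 + p.2) : Set (ℕ × ℕ)) N := by
    refine RkS.mono ?_ h1
    rintro ⟨i, l⟩ ⟨hp1, hp2, hp3, hp4⟩
    simp only at hp1 hp2 hp3 hp4
    rw [Finset.mem_coe, Finset.mem_filter, hQm]
    simp only
    omega
  have h3 := corner_add Q (fun i l hil => by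
    rw [hQm]
    omega) h2
  have h4 := rkS_swap h3
  have h5 := rkS_rev 1 d (fun p hp => by
    obtain ⟨i, l⟩ := p
    have h6 : ((l, i) : ℕ × ℕ) ∈ Q := hp
    rw [hQm] at h6
    simp only
    omega) h4
  rw [← coe_Tfin]
  refine corner_add (Tfin d) (fun i l hil => by
    rw [mem_Tfin]
    omega) (RkS.mono ?_ h5)
  rintro ⟨i, l⟩ ⟨hp1, hp2⟩
  have h6 : ((l, d - 1 * l - i) : ℕ × ℕ) ∈ Q := hp2
  rw [hQm] at h6
  rw [Finset.mem_coe, Finset.mem_filter, mem_Tfin]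
  simp only at hp1 ⊢
  omega

/-- The hexagon. -/
theorem bridge_hex {d M1 M2 M3 N : ℕ} (h12 : M1 + M2 ≤ d + 1) (h13 : M1 + M3 ≤ d + 1)
    (h23 : M2 + M3 ≤ d + 1)
    (h : RkS (PF ℚ w) {p | p.1 + M1 ≤ d ∧ p.2 + M2 ≤ d ∧ M3 ≤ p.1 + p.2 ∧ p.1 + p.2 ≤ d} N) :
    RkS (PF ℚ (ov M2 (ov M1 (ov M3 w)))) (Tset d)
      (N + (M3 + 1).choose 2 + (M1 + 1).choose 2 + (M2 + 1).choose 2) := by
  obtain ⟨Q, hQ⟩ : ∃ Q : Finset (ℕ × ℕ),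
    Q = (Tfin d).filter fun p => p.1 + M1 ≤ d ∧ p.2 + M2 ≤ d := ⟨_, rfl⟩
  have hQm : ∀ i l, ((i, l) : ℕ × ℕ) ∈ Q ↔ i + l ≤ d ∧ i + M1 ≤ d ∧ l + M2 ≤ d := fun i l => by
    rw [hQ, Finset.mem_filter, mem_Tfin]
  have h1 := corner_add (M := M3) (w := w) Q (fun i l hil => by
    rw [hQm]
    omega) (N := N) (RkS.mono (by
      rintro ⟨i, l⟩ ⟨hp1, hp2, hp3, hp4⟩
      rw [Finset.mem_coe, Finset.mem_filter, hQm]
      exact ⟨⟨hp4, hp1, hp2⟩, hp3⟩) h)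
  refine bridge2 h12 (RkS.mono ?_ h1)
  rintro ⟨i, l⟩ hp
  rw [Finset.mem_coe, hQm] at hp
  exact ⟨hp.2.1, hp.2.2, hp.1⟩

/-- Exponents of slope two. -/
def TzS (k N : ℕ) : Set (ℕ × ℕ) := {p | p.1 ≤ k ∧ p.2 + 2 * p.1 ≤ N}

/-- Slope two with two cut corners. -/
theorem bridge_tz {k N₂ y M n : ℕ} (h1 : M ≤ k + 1) (h2 : y ≤ k + 1) (h3 : 2 * M ≤ N₂ + 2)
    (h4 : 2 * y ≤ N₂ + 2) (h5 : M + y ≤ N₂ + 1)
    (h : RkS (PF ℚ w) {p | p.1 ≤ k ∧ M ≤ p.1 + p.2 ∧ p.2 + 2 * p.1 ≤ N₂ ∧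
      p.1 + p.2 + y ≤ N₂} n) :
    RkS (PF ℚ (ov y (ov M w))) (TzS k N₂) (n + (M + 1).choose 2 + (y + 1).choose 2) := by
  obtain ⟨Q, hQ⟩ : ∃ Q : Finset (ℕ × ℕ),
    Q = (Tfin N₂).filter fun p => p.1 ≤ k ∧ p.2 + 2 * p.1 ≤ N₂ ∧ p.1 + p.2 + y ≤ N₂ := ⟨_, rfl⟩
  have hQm : ∀ i l, ((i, l) : ℕ × ℕ) ∈ Q ↔ i ≤ k ∧ l + 2 * i ≤ N₂ ∧ i + l + y ≤ N₂ := fun i l => by
    rw [hQ, Finset.mem_filter, mem_Tfin]
    simp only
    omega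
  have g1 := corner_add (M := M) (w := w) Q (fun i l hil => by
    rw [hQm]
    omega) (N := n) (RkS.mono (by
      rintro ⟨i, l⟩ ⟨hp1, hp2, hp3, hp4⟩
      rw [Finset.mem_coe, Finset.mem_filter, hQm]
      exact ⟨⟨hp1, hp3, hp4⟩, hp2⟩) h)
  have g2 := rkS_swap g1
  have g3 := rkS_rev 2 N₂ (fun p hp => by
    obtain ⟨i, l⟩ := p
    have h6 : ((l, i) : ℕ × ℕ) ∈ Q := hp
    rw [hQm] at h6
    simp only
    omega) g2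
  obtain ⟨Q', hQ'⟩ : ∃ Q' : Finset (ℕ × ℕ),
    Q' = (Tfin N₂).filter fun p => p.2 ≤ k ∧ p.1 + 2 * p.2 ≤ N₂ := ⟨_, rfl⟩
  have hQm' : ∀ i l, ((i, l) : ℕ × ℕ) ∈ Q' ↔ l ≤ k ∧ i + 2 * l ≤ N₂ := fun i l => by
    rw [hQ', Finset.mem_filter, mem_Tfin]
    simp only
    omega
  have g4 := corner_add (M := y) Q' (fun i l hil => by
    rw [hQm']
    omega) (RkS.mono (by
      rintro ⟨i, l⟩ ⟨hp1, hp2⟩
      have h6 : ((l, N₂ - 2 * l - i) : ℕ × ℕ) ∈ Q := hp2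
      rw [hQm] at h6
      rw [Finset.mem_coe, Finset.mem_filter, hQm']
      simp only at hp1 ⊢
      omega) g3)
  have g5 := rkS_swap g4
  refine RkS.mono ?_ g5
  rintro ⟨i, l⟩ hp
  have h6 : ((l, i) : ℕ × ℕ) ∈ Q' := hp
  rw [hQm'] at h6
  exact h6

/-- From slope two to the rectangle. -/
theorem tz_rect {𝓘 : Set (Ideal ℚ[X][X])} (h𝓘 : Stable 𝓘) {k₁ k₂ n : ℕ} (hk : k₁ ≤ k₂)
    (h : RkS 𝓘 {p | p.2 ≤ k₁ ∧ p.1 + 2 * p.2 ≤ k₁ + k₂} n) :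
    RkS 𝓘 {p | p.1 < k₂ + 1 ∧ p.2 < k₁ + 1} n := by
  refine RkS.compressY h𝓘 1 k₁ (hKz k₁) (domY_of_block fun i q hp => ?_) h
  obtain ⟨hp1, hp2⟩ := hp
  simp only at hp1 hp2
  rcases Nat.le_total (i + q) k₂ with hc | hc
  · refine ⟨0, by omega, by omega, fun l hl hl' x hx => ?_⟩
    simp only [Set.mem_ofPred_eq]
    omega
  · refine ⟨i + q - k₂, by omega, by omega, fun l hl hl' x hx => ?_⟩
    simp only [Set.mem_ofPred_eq]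
    omega

/-- From slope two with the point `y` to the polygon without it. -/
theorem bridge_back {k₁ k₂ y n : ℕ} (hk : k₁ ≤ k₂)
    (h : RkS (PF ℚ (ov y w)) (TzS k₁ (k₁ + k₂)) (n + (y + 1).choose 2)) :
    RkS (PF ℚ w) {p | p.1 ≤ k₁ ∧ p.2 ≤ k₂ ∧ p.1 + p.2 + y ≤ k₁ + k₂} n := by
  have h1 := rkS_swap h
  have h2 := tz_rect (T_STAB ℚ _ (ov y w)) hk (n := n + (y + 1).choose 2) (RkS.mono (by
    rintro ⟨i, l⟩ hp
    exact hp) h1)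
  have h3 := corner_remove h2
  have h4 := rkS_rev 0 k₂ (fun p hp => by
    have := hp.1
    omega) h3
  have h5 := rkS_swap h4
  have h6 := rkS_rev 0 k₁ (fun p hp => by
    obtain ⟨i, l⟩ := p
    have h7 : 0 * i + l ≤ k₂ ∧ _ := ⟨by
      have := hp.1
      simp only at this
      omega, hp.2⟩
    have h8 := hp.2.2.1
    simp only at h8 ⊢
    omega) h5
  refine RkS.mono ?_ h6
  rintro ⟨i, l⟩ hp
  simp only [Set.mem_ofPred_eq] at hp ⊢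
  omega

end Pool.Agent.W609.T
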