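import Mathlib
import Pool.Agent.H15.G.R_seed8.W609.T.Nc

set_option autoImplicit false

/-!
# Sets of monomials whose columns have linear heights
-/

namespace Pool.Agent.W609.T

open Polynomial Pool.Agent.H932R2 Pool.Agent.H932R3 Pool.Agent.H932R7
open Pool.Agent.W608 Pool.Agent.W611

/-- The columns `0, ..., k` with heights of slope `s` and last height `T`. -/
def linS (s k T : ℕ) : Set (ℕ × ℕ) := {p | p.1 ≤ k ∧ p.2 < s * (k - p.1) + T}

theorem mem_linS {s k T i l : ℕ} : ((i, l) : ℕ × ℕ) ∈ linS s k T ↔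
    i ≤ k ∧ l < s * (k - i) + T := Iff.rfl

/-- The shape after the compression along the lines `i + δ l = const`. -/
def M1L (δ s k T : ℕ) : Set (ℕ × ℕ) :=
  {p | p.1 % δ + δ * p.2 ≤ k ∧ p.1 / δ < s * (k - (p.1 % δ + δ * p.2)) + T}

theorem mem_M1L {δ s k T i l : ℕ} : ((i, l) : ℕ × ℕ) ∈ M1L δ s k T ↔
    i % δ + δ * l ≤ k ∧ i / δ < s * (k - (i % δ + δ * l)) + T := Iff.rfl

theorem lin_step_1 {δ s k T B : ℕ} (hs : 0 < s) (hδ : 0 < δ) (hB : s * k + T ≤ B) :
    DomY δ B (linS s k T) (M1L δ s k T) := by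
  refine domY_of_block fun i q hp => ?_
  rw [mem_M1L] at hp
  obtain ⟨a, ha⟩ : ∃ a, a = i / δ := ⟨_, rfl⟩
  obtain ⟨b, hb⟩ : ∃ b, b = i % δ := ⟨_, rfl⟩
  have hi : δ * a + b = i := by rw [ha, hb]; exact Nat.div_add_mod i δ
  rw [← ha, ← hb] at hp
  obtain ⟨hp1, hp2⟩ := hp
  obtain ⟨v, hv⟩ : ∃ v, k = b + δ * q + v := Nat.exists_eq_add_of_le hp1
  have e1 : k - (b + δ * q) = v := by omega
  rw [e1] at hp2
  have hq : q ≤ δ * q := Nat.le_mul_of_pos_left q hδ
  have hsk : s * v + s * (δ * q) ≤ s * k := by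
    rw [← Nat.mul_add]
    exact Nat.mul_le_mul_left _ (by omega)
  have hsq : δ * q ≤ s * (δ * q) := Nat.le_mul_of_pos_left _ hs
  refine ⟨a, by omega, ?_, fun l hl hl' x hx => ?_⟩
  · rw [Nat.mul_add]
    omega
  · rw [mem_linS]
    obtain ⟨e, rfl⟩ := Nat.exists_eq_add_of_le hl
    obtain ⟨g, hg⟩ : ∃ g, q = e + g := ⟨q - e, by omega⟩
    have h1 : δ * (a + e) = δ * a + δ * e := by ring
    have h2 : δ * q = δ * e + δ * g := by rw [hg]; ring
    have hx' : x = b + δ * g := by omega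
    have h3 : k - x = v + δ * e := by omega
    have h4 : s * (v + δ * e) = s * v + s * (δ * e) := by ring
    have h5 : e ≤ δ * e := Nat.le_mul_of_pos_left e hδ
    have h6 : δ * e ≤ s * (δ * e) := Nat.le_mul_of_pos_left _ hs
    rw [h3, h4]
    omega

/-- The number of elements of the rows of `M1L`. -/
def cntL (δ s k T q : ℕ) : ℕ :=
  ∑ b ∈ Finset.range δ, (if b + δ * q ≤ k then s * (k - (b + δ * q)) + T else 0)

theorem exists_colsL (δ s k T q : ℕ) (hδ : 0 < δ) :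
    ∃ A : Finset ℕ, A.card = cntL δ s k T q ∧ ∀ x ∈ A, ((x, q) : ℕ × ℕ) ∈ M1L δ s k T := by
  classical
  have key : ∀ a b, b < δ → (δ * a + b) / δ = a ∧ (δ * a + b) % δ = b := by
    intro a b hb
    constructor
    · rw [Nat.mul_add_div hδ, Nat.div_eq_of_lt hb, add_zero]
    · rw [Nat.mul_add_mod, Nat.mod_eq_of_lt hb]
  refine ⟨(rowsF δ fun b => if b + δ * q ≤ k then s * (k - (b + δ * q)) + T
        else 0).image fun p => δ * p.1 + p.2, ?_, ?_⟩
  · rw [Finset.card_image_of_injOn, card_rowsF]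
    · rfl
    · rintro ⟨a, b⟩ hp ⟨a', b'⟩ hp' h
      rw [Finset.mem_coe, mem_rowsF] at hp hp'
      simp only at h
      have h1 := key a b hp.1
      have h2 := key a' b' hp'.1
      rw [h] at h1
      rw [Prod.mk.injEq]
      exact ⟨h1.1.symm.trans h2.1, h1.2.symm.trans h2.2⟩
  · intro x hx
    rw [Finset.mem_image] at hx
    obtain ⟨⟨a, b⟩, hp, rfl⟩ := hx
    rw [mem_rowsF] at hp
    obtain ⟨hb, ha⟩ := hp
    simp only
    rw [mem_M1L, (key a b hb).1, (key a b hb).2]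
    split_ifs at ha with h
    · exact ⟨h, ha⟩
    · omega

theorem lin_step_2 {δ s k T B : ℕ} (hδ : 0 < δ) (hB : δ * (s * k + T) + δ ≤ B)
    {S : Set (ℕ × ℕ)} (hS : ∀ i q, ((i, q) : ℕ × ℕ) ∈ S → i < cntL δ s k T q) :
    DomX B (M1L δ s k T) S := by
  refine domX_of_card fun i q hp => ?_
  obtain ⟨A, hA, hM⟩ := exists_colsL δ s k T q hδ
  refine ⟨A, ?_, fun x hx => ⟨?_, hM x hx⟩⟩
  · rw [hA]
    exact hS i q hp
  · have h1 := (mem_M1L.1 (hM x hx)).2
    refine le_trans ?_ hB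
    have h2 := Nat.div_add_mod x δ
    have h3 : s * (k - (x % δ + δ * q)) ≤ s * k := Nat.mul_le_mul_left _ (by omega)
    have h4 := Nat.mod_lt x hδ
    have h5 : δ * (x / δ) ≤ δ * (s * k + T) := Nat.mul_le_mul_left _ (by omega)
    omega

theorem sum_sub_range (s δ X T : ℕ) (h : δ ≤ X + 1) :
    ∑ b ∈ Finset.range δ, (s * (X - b) + T) + s * cc δ = s * (δ * X) + δ * T := by
  unfold cc
  rw [Finset.mul_sum, ← Finset.sum_add_distrib]
  have h1 : ∀ b ∈ Finset.range δ, s * (X - b) + T + s * b = s * X + T := by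
    intro b hb
    rw [Finset.mem_range] at hb
    have : s * (X - b) + s * b = s * X := by
      rw [← Nat.mul_add]
      congr 1
      omega
    omega
  rw [Finset.sum_congr rfl h1, Finset.sum_const, Finset.card_range, smul_eq_mul]
  ring

theorem cntL_low {δ s k T κ ρ w q : ℕ} (hr : ρ + 1 ≤ δ) (hk : k = δ * κ + ρ)
    (hq : κ = q + w) (hw : 0 < w) :
    cntL δ s k T q + s * cc δ = s * (δ * δ) * w + (s * (δ * ρ) + δ * T) := by
  have h1 : cntL δ s k T q = ∑ b ∈ Finset.range δ, (s * (δ * w + ρ - b) + T) := by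
    unfold cntL
    refine Finset.sum_congr rfl fun b hb => ?_
    rw [Finset.mem_range] at hb
    have e1 : δ * κ = δ * q + δ * w := by rw [hq]; ring
    have e2 : δ ≤ δ * w := Nat.le_mul_of_pos_right δ hw
    rw [if_pos (by omega)]
    congr 2
    omega
  have e2 : δ ≤ δ * w := Nat.le_mul_of_pos_right δ hw
  rw [h1, sum_sub_range s δ (δ * w + ρ) T (by omega)]
  ring

theorem cntL_top {δ s k T κ ρ : ℕ} (hr : ρ + 1 ≤ δ) (hk : k = δ * κ + ρ) :
    cntL δ s k T κ + s * cc (ρ + 1) = s * ((ρ + 1) * ρ) + (ρ + 1) * T := by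
  have h1 : cntL δ s k T κ = ∑ b ∈ Finset.range (ρ + 1), (s * (ρ - b) + T) := by
    unfold cntL
    rw [← Finset.sum_subset (Finset.range_mono hr)]
    · refine Finset.sum_congr rfl fun b hb => ?_
      rw [Finset.mem_range] at hb
      rw [if_pos (by omega)]
      congr 2
      omega
    · intro b hb hb'
      rw [Finset.mem_range] at hb hb'
      rw [if_neg (by omega)]
  rw [h1, sum_sub_range s (ρ + 1) ρ T (by omega)]

variable {K : Type*} [Field K] [CharZero K] {𝓘 : Set (Ideal K[X][X])} {n : ℕ}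

theorem lin_two (h𝓘 : Stable 𝓘) {s k T δ : ℕ} (hs : 0 < s) (hδ : 0 < δ) {S : Set (ℕ × ℕ)}
    (hS : ∀ i q, ((i, q) : ℕ × ℕ) ∈ S → i < cntL δ s k T q) (hn : RkS 𝓘 S n) :
    RkS 𝓘 (linS s k T) n := by
  have : Infinite K := infK
  obtain ⟨B, hB⟩ : ∃ B, B = δ * (s * k + T) + δ + (s * k + T) := ⟨_, rfl⟩
  refine RkS.compressY h𝓘 δ B (hKz B) (lin_step_1 hs hδ (by omega)) ?_
  exact RkS.compressX h𝓘 B (hKz B) (lin_step_2 hδ (by omega) hS) hn

/-- The size identity. -/
theorem lin_id {s k T δ κ ρ f : ℕ} (hk : k = δ * κ + ρ) (hf : δ = ρ + 1 + f) :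
    s * (δ * δ) * κ * (κ + 1) + 2 * (κ + 1) * (s * (δ * ρ) + δ * T) + 2 * (s * (cc f + f)) =
      (k + 1) * (s * k + 2 * T) + 2 * (κ + 1) * (s * cc δ) + 2 * (f * T) := by
  have h1 := cc_two f
  have h2 := cc_two δ
  rw [hk]
  zify at h1 h2 hf ⊢
  have h3 : (ρ : ℤ) = δ - 1 - f := by rw [hf]; ring
  rw [h3]
  linear_combination (s : ℤ) * h1 - (s : ℤ) * (κ + 1 : ℤ) * h2

/-- From balanced shapes to shapes with linear heights. -/
theorem start_lin (h𝓘 : Stable 𝓘) {s k T δ κ ρ f : ℕ} (hs : 0 < s) (hT : 0 < T) (hκ1 : 1 ≤ κ)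
    (hf : δ = ρ + 1 + f) (hk : k = δ * κ + ρ)
    (hFR : κ * (κ + 1) * (κ + 2) ≤ (k + 1) * (s * k + 2 * T))
    (hY : s * (cc f + f) ≤ f * T + κ) :
    ∃ s' u t j, 0 < s' ∧ Good s' u t j ∧ sz s' u t j = (k + 1) * (s * k + 2 * T) ∧
      κ ≤ u + 1 ∧ (f = 0 → κ ≤ u) ∧
      ∀ n, RkS 𝓘 (↑(Lfin s' u t j) : Set (ℕ × ℕ)) n → RkS 𝓘 (linS s k T) n := by
  have : Infinite K := infK
  have hδ : 0 < δ := by omega
  have hrδ : ρ + 1 ≤ δ := by omega
  have hδδ : 0 < s * (δ * δ) := Nat.mul_pos hs (Nat.mul_pos hδ hδ)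
  have hS0 := lin_id (s := s) (T := T) hk hf
  have hadd := cc_add (ρ + 1) f
  rw [← hf] at hadd
  have hccr := cc_two (ρ + 1)
  have hccδ := cc_two δ
  -- the top row
  have htopval : s * (δ * ρ) + δ * T + s * (cc f + f) + s * cc (ρ + 1) =
      s * ((ρ + 1) * ρ) + (ρ + 1) * T + s * cc δ + f * T := by
    have e1 : δ * ρ + cc f + f + cc (ρ + 1) = (ρ + 1) * ρ + cc δ := by
      rw [hadd]
      have e2 : δ * ρ = (ρ + 1) * ρ + f * ρ := by rw [hf]; ring
      have e3 : f * (ρ + 1) = f * ρ + f := by ring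
      omega
    have e4 : δ * T = (ρ + 1) * T + f * T := by rw [hf]; ring
    have e5 : s * (δ * ρ) + s * (cc f + f) + s * cc (ρ + 1) = s * ((ρ + 1) * ρ) + s * cc δ := by
      rw [← Nat.mul_add, ← Nat.mul_add, ← Nat.mul_add]
      congr 1
      omega
    omega
  obtain ⟨C, hC⟩ : ∃ C, C = s * cc δ := ⟨_, rfl⟩
  obtain ⟨g, hg⟩ : ∃ g, g = s * (δ * ρ) + δ * T := ⟨_, rfl⟩
  obtain ⟨D, hD⟩ : ∃ D, D = s * (δ * δ) := ⟨_, rfl⟩
  obtain ⟨P, hP⟩ : ∃ P, P = cntL δ s k T κ := ⟨_, rfl⟩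
  have htop := cntL_top (s := s) (T := T) hrδ hk
  rw [← hP] at htop
  rw [← hC, ← hg] at htopval
  rw [← hC, ← hg, ← hD] at hS0
  have hPg : P + C + f * T = g + s * (cc f + f) := by omega
  have hP0 : 0 < P := by
    have h1 : s * cc (ρ + 1) ≤ s * ((ρ + 1) * ρ) := by
      refine Nat.mul_le_mul_left _ ?_
      have h2 : (ρ + 1) * (ρ + 1) = (ρ + 1) * ρ + (ρ + 1) := by ring
      omega
    have h2 : 0 < (ρ + 1) * T := by positivity
    omega
  rw [← hD] at hδδ
  rcases Nat.lt_or_ge (f * T) (s * (cc f + f)) with hex | hex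
  · obtain ⟨Y, hYd⟩ : ∃ Y, s * (cc f + f) = f * T + Y := Nat.exists_eq_add_of_le hex.le
    have hY' : Y ≤ κ := by omega
    have hf0 : 0 < f := by
      by_contra h0
      have : f = 0 := by omega
      subst this
      simp [cc] at hex
    have hTf : 2 * T < s * (f + 1) := by
      have h1 := cc_two f
      have h2 : f * (2 * T) < f * (s * (f + 1)) := by
        have e1 : f * (s * (f + 1)) = s * (2 * (cc f + f)) := by
          have : 2 * (cc f + f) = f * (f + 1) := by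
            have : f * (f + 1) = f * f + f := by ring
            omega
          rw [this]
          ring
        rw [e1]
        have e2 : f * (2 * T) = 2 * (f * T) := by ring
        have e3 : s * (2 * (cc f + f)) = 2 * (s * (cc f + f)) := by ring
        omega
      exact Nat.lt_of_mul_lt_mul_left h2
    have hgs : g < D := by
      rw [hg, hD]
      have e1 : s * (δ * ρ) + δ * T = δ * (s * ρ + T) := by ring
      have e2 : s * (δ * δ) = δ * (s * δ) := by ring
      rw [e1, e2]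
      refine Nat.mul_lt_mul_of_pos_left ?_ hδ
      have e3 : s * δ = s * ρ + s * (f + 1) := by rw [hf]; ring
      omega
    have hcδ : C < D := by
      rw [hC, hD]
      refine Nat.mul_lt_mul_of_pos_left ?_ hs
      omega
    have hV0 : C ≤ D * κ + g := by
      have : D * 1 ≤ D * κ := Nat.mul_le_mul_left _ hκ1
      omega
    obtain ⟨V, hV⟩ : ∃ V, D * κ + g = C + V := Nat.exists_eq_add_of_le hV0
    obtain ⟨u, t, j, h1, h2, h3, h4⟩ := excess (D := D) (C := C) (κ := κ) (g := g) (Y := Y)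
      (V := V) (S := (k + 1) * (s * k + 2 * T)) hgs hcδ hκ1 hY' (by omega) hV (by
        rw [hYd] at hS0
        omega) hFR
    refine ⟨D, u, t, j, hδδ, h1, h2, h3, fun h0 => by omega, fun n hn => ?_⟩
    rw [h4] at hn
    refine lin_two h𝓘 hs hδ (S := Dset D (D * κ + g) C κ Y) (fun i q hp => ?_) ?_
    · rw [mem_Dset] at hp
      obtain ⟨hq, hi⟩ := hp
      obtain ⟨w, hw⟩ := Nat.exists_eq_add_of_le hq
      rcases Nat.eq_zero_or_pos w with h0 | h0
      · have h5 : q = κ := by omega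
        subst h5
        rw [if_pos rfl] at hi
        omega
      · have h5 := cntL_low (s := s) (T := T) hrδ hk hw h0
        rw [← hC, ← hg, ← hD] at h5
        rw [if_neg (by omega)] at hi
        have e3 : D * κ = D * q + D * w := by rw [hw]; ring
        omega
    · obtain ⟨σ, hσ⟩ : ∃ σ, D = σ + 1 := ⟨D - 1, by omega⟩
      rw [hσ] at hV hgs hcδ hn ⊢
      refine RkS.compressY h𝓘 σ κ (hKz κ) (step_E (g := g) rfl le_rfl) ?_
      exact RkS.compressY h𝓘 (σ + 1) κ (hKz κ) (step_L (V := V) (by omega) rfl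
        (by omega) (by omega) hY' le_rfl) hn
  · obtain ⟨e, he⟩ : ∃ e, f * T = s * (cc f + f) + e := Nat.exists_eq_add_of_le hex
    obtain ⟨T', hT'⟩ : ∃ T', T' = P + e := ⟨_, rfl⟩
    have hgC : g = C + T' := by omega
    have hS1 : D * κ * (κ + 1) + 2 * (κ + 1) * T' = (k + 1) * (s * k + 2 * T) + 2 * e := by
      have e5 : 2 * (κ + 1) * (C + T') = 2 * (κ + 1) * C + 2 * (κ + 1) * T' := by ring
      rw [hgC, e5, he] at hS0
      omega
    obtain ⟨s', u', t', j', g1, g2, g3, g4, g5, g5', g6⟩ := good_blk h𝓘 hδδ hκ1 (T := T')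
      (e := e) (by omega) hS1 hFR
    refine ⟨s', u', t', j', g1, g2, g3, g5, fun h0 => g5' (Or.inl ?_), fun n hn => ?_⟩
    · rw [h0, Nat.zero_mul] at he
      omega
    refine lin_two h𝓘 hs hδ (fun i q hp => ?_) (g6 n hn)
    rw [Finset.mem_coe, blk, mem_rowsF] at hp
    obtain ⟨hq, hi⟩ := hp
    obtain ⟨w, hw⟩ : ∃ w, κ = q + w := Nat.exists_eq_add_of_le (by omega)
    rcases Nat.eq_zero_or_pos w with h0 | h0
    · have h1 : q = κ := by omega
      subst h1
      rw [if_pos rfl] at hi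
      omega
    · have h1 := cntL_low (s := s) (T := T) hrδ hk hw h0
      rw [← hC, ← hg, ← hD] at h1
      rw [if_neg (by omega)] at hi
      have e3 : κ - q = w := by omega
      rw [e3] at hi
      omega

end Pool.Agent.W609.T
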