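import Mathlib
import Pool.Agent.H15.G.R_seed8.W609.T.Lin

set_option autoImplicit false

/-!
# Ranks away from the critical size for sets with columns of linear heights
-/

namespace Pool.Agent.W609.T

open Polynomial Pool.Agent.H932R2 Pool.Agent.H932R3 Pool.Agent.H932R7
open Pool.Agent.W608 Pool.Agent.W611

/-- The choice of the width of the strips. -/
theorem exists_delta_lin {s k T m : ℕ} (hs : s = 1 ∨ s = 2) (hT : 0 < T) (hm : 0 < m) (hk : m ≤ k)
    (hbig : 8 * (m + 2) ^ 3 ≤ (k + 1) * (s * k + 2 * T)) :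
    ∃ δ κ ρ f, 1 ≤ κ ∧ δ = ρ + 1 + f ∧ k = δ * κ + ρ ∧
      κ * (κ + 1) * (κ + 2) ≤ (k + 1) * (s * k + 2 * T) ∧
      s * (cc f + f) ≤ f * T + κ ∧ (m + 1 ≤ κ ∨ (m ≤ κ ∧ f = 0)) := by
  classical
  obtain ⟨X, hX⟩ : ∃ X, X = (k + 1) * (s * k + 2 * T) := ⟨_, rfl⟩
  rw [← hX] at hbig ⊢
  have hex : ∃ a, k / (a + 1) * (k / (a + 1) + 1) * (k / (a + 1) + 2) ≤ X := by
    refine ⟨k, ?_⟩
    rw [Nat.div_eq_of_lt (by omega)]
    omega
  have hsp := Nat.find_spec hex
  have hmin := fun a => Nat.find_min hex (m := a)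
  obtain ⟨a, ha⟩ : ∃ a, a = Nat.find hex := ⟨_, rfl⟩
  rw [← ha] at hsp hmin
  rcases Nat.eq_zero_or_pos a with h0 | h0
  · rw [h0, Nat.zero_add, Nat.div_one] at hsp
    exact ⟨1, k, 0, 0, by omega, rfl, by ring, hsp, by simp [cc], Or.inr ⟨hk, rfl⟩⟩
  · have hf := hmin (a - 1) (by omega)
    rw [not_le] at hf
    have e0 : a - 1 + 1 = a := by omega
    rw [e0] at hf
    obtain ⟨x, hx⟩ : ∃ x, x = k / a := ⟨_, rfl⟩
    rw [← hx] at hf
    have hx2 : 2 * m + 3 ≤ x := by
      by_contra hcon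
      have h1 := three_mono (a := x) (b := 2 * m + 2) (by omega)
      have h2 : (2 * m + 2) * (2 * m + 2 + 1) * (2 * m + 2 + 2) ≤ 8 * (m + 2) ^ 3 := by
        nlinarith
      omega
    have hax : a * x ≤ k := by
      rw [hx]
      exact Nat.mul_div_le k a
    have hX1 : (a * x + 1) * (s * (a * x) + 2) ≤ X := by
      rw [hX]
      have : s * (a * x) ≤ s * k := Nat.mul_le_mul_left _ hax
      exact Nat.mul_le_mul (by omega) (by omega)
    have hka : m + 1 ≤ k / (a + 1) := by
      rw [Nat.le_div_iff_mul_le (by omega)]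
      have h1 : (m + 1) * (a + 1) ≤ (m + 1) * (2 * a) := Nat.mul_le_mul_left _ (by omega)
      have h2 : a * (2 * m + 3) ≤ a * x := Nat.mul_le_mul_left _ hx2
      nlinarith
    obtain ⟨κ, hκ⟩ : ∃ κ, κ = k / (a + 1) := ⟨_, rfl⟩
    obtain ⟨ρ, hρ⟩ : ∃ ρ, ρ = k % (a + 1) := ⟨_, rfl⟩
    have hρa : ρ < a + 1 := by
      rw [hρ]
      exact Nat.mod_lt _ (by omega)
    have hkd : k = (a + 1) * κ + ρ := by
      rw [hκ, hρ]
      exact (Nat.div_add_mod k (a + 1)).symm
    rw [← hκ] at hka hsp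
    obtain ⟨f, hfd⟩ : ∃ f, a = ρ + f := ⟨a - ρ, by omega⟩
    refine ⟨a + 1, κ, ρ, f, by omega, by omega, hkd, hsp, ?_, Or.inl hka⟩
    have hcc := cc_two f
    have hff : f * f ≤ a * a := Nat.mul_le_mul (by omega) (by omega)
    have hfa : f * f + a ≤ a * a + f := by
      rw [hfd]
      nlinarith [Nat.zero_le (ρ * f), Nat.zero_le (ρ * ρ), Nat.le_mul_self ρ]
    have hfT : f * 1 ≤ f * T := Nat.mul_le_mul_left _ hT
    rcases hs with rfl | rfl
    · -- slope one
      have haa : a * a ≤ x + 2 := by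
        by_contra hcon
        have h1 : x + 3 ≤ a * a := by omega
        have h2 : (x + 3) * (x * x) ≤ a * a * (x * x) := Nat.mul_le_mul_right _ h1
        have h3 : 1 * x ≤ a * x := Nat.mul_le_mul_right _ h0
        nlinarith
      have h5 : a * a - a ≤ 2 * κ := by
        rcases Nat.lt_or_ge a 2 with h6 | h6
        · have : a = 1 := by omega
          subst this
          omega
        · have h7 : (a - 1) * (a + 1) ≤ 2 * x := by
            have e1 : (a - 1) * (a + 1) = a * a - 1 := by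
              obtain ⟨b, rfl⟩ : ∃ b, a = b + 1 := ⟨a - 1, by omega⟩
              rw [Nat.add_sub_cancel]
              have : (b + 1) * (b + 1) = b * (b + 1 + 1) + 1 := by ring
              omega
            omega
          have h8 : (a * a - a) * (a + 1) ≤ 2 * k := by
            have e2 : a * a - a = a * (a - 1) := by
              rw [Nat.mul_sub]
              omega
            rw [e2]
            calc a * (a - 1) * (a + 1) = a * ((a - 1) * (a + 1)) := by ring
              _ ≤ a * (2 * x) := Nat.mul_le_mul_left _ h7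
              _ = 2 * (a * x) := by ring
              _ ≤ 2 * k := by omega
          -- `2 k < 2 (a + 1) (κ + 1)`
          have h9 : (a * a - a) * (a + 1) < (2 * κ + 2) * (a + 1) := by
            have : (2 * κ + 2) * (a + 1) = 2 * ((a + 1) * κ) + 2 * (a + 1) := by ring
            omega
          have h10 : a * a - a < 2 * κ + 2 := Nat.lt_of_mul_lt_mul_right h9
          -- parity
          have h11 : (a * a - a) % 2 = 0 := by
            have e2 : a * a - a = a * (a - 1) := by
              rw [Nat.mul_sub]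
              omega
            rw [e2]
            obtain ⟨b, rfl⟩ : ∃ b, a = b + 1 := ⟨a - 1, by omega⟩
            rw [Nat.add_sub_cancel, Nat.mul_comm]
            exact Nat.even_iff.1 (Nat.even_mul_succ_self b)
          omega
      have h12 : a ≤ a * a := Nat.le_mul_self a
      omega
    · -- slope two
      have haa : a * (a + 1) ≤ x := by
        by_contra hcon
        push Not at hcon
        rcases Nat.lt_or_ge a 2 with h6 | h6
        · have : a = 1 := by omega
          subst this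
          omega
        · have h7 : x + 3 * 1 + 2 ≤ 2 * (a * a) + 2 := by nlinarith
          have h8 : x * (x * (x + 3) + 2) ≤ x * (x * (2 * (a * a)) + 2) := by
            refine Nat.mul_le_mul_left _ ?_
            have : x * (x + 3) ≤ x * (2 * (a * a)) := Nat.mul_le_mul_left _ (by omega)
            omega
          have h9 : (a * x + 1) * (2 * (a * x) + 2) = x * (x * (2 * (a * a))) + 4 * (a * x) + 2 := by
            ring
          have h10 : x * (x + 1) * (x + 2) = x * (x * (x + 3) + 2) := by ring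
          have h11 : x * (x * (2 * (a * a)) + 2) = x * (x * (2 * (a * a))) + 2 * x := by ring
          have h12 : 1 * x ≤ a * x := Nat.mul_le_mul_right _ h0
          omega
      have h5 : a * a ≤ κ := by
        have h8 : a * a * (a + 1) ≤ k := by
          calc a * a * (a + 1) = a * (a * (a + 1)) := by ring
            _ ≤ a * x := Nat.mul_le_mul_left _ haa
            _ ≤ k := hax
        rw [hκ, Nat.le_div_iff_mul_le (by omega)]
        exact h8
      omega

/-- The finite set with columns of linear heights. -/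
def linF (s k T : ℕ) : Finset (ℕ × ℕ) :=
  (Finset.range (k + 1)).biUnion fun a => (Finset.range (s * (k - a) + T)).image fun b => (a, b)

theorem mem_linF {s k T i l : ℕ} : ((i, l) : ℕ × ℕ) ∈ linF s k T ↔
    i ≤ k ∧ l < s * (k - i) + T := by
  unfold linF
  simp only [Finset.mem_biUnion, Finset.mem_range, Finset.mem_image, Prod.mk.injEq]
  constructor
  · rintro ⟨a, ha, b, hb, rfl, rfl⟩
    exact ⟨by omega, hb⟩
  · rintro ⟨h1, h2⟩
    exact ⟨i, by omega, l, h2, rfl, rfl⟩

theorem coe_linF (s k T : ℕ) : (↑(linF s k T) : Set (ℕ × ℕ)) = linS s k T := by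
  ext ⟨i, l⟩
  rw [Finset.mem_coe, mem_linF, mem_linS]

theorem card_cols (Q : Finset (ℕ × ℕ)) (k : ℕ) (h : ℕ → ℕ) (g : ℕ → ℕ)
    (hQ : ∀ a b, ((a, b) : ℕ × ℕ) ∈ Q ↔ a < k ∧ g a ≤ b ∧ b < g a + h a) :
    Q.card = ∑ a ∈ Finset.range k, h a := by
  classical
  have h1 : Q = (Finset.range k).biUnion fun a => (Finset.Ico (g a) (g a + h a)).image
      fun b => (a, b) := by
    ext ⟨a, b⟩
    rw [hQ]
    simp only [Finset.mem_biUnion, Finset.mem_range, Finset.mem_image, Prod.mk.injEq,
      Finset.mem_Ico]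
    constructor
    · rintro ⟨h1, h2, h3⟩
      exact ⟨a, h1, b, ⟨h2, h3⟩, rfl, rfl⟩
    · rintro ⟨a', ha, b', hb, rfl, rfl⟩
      exact ⟨ha, hb⟩
  rw [h1, Finset.card_biUnion]
  · refine Finset.sum_congr rfl fun a _ => ?_
    rw [Finset.card_image_of_injective _ (fun x y hxy => (Prod.mk.inj hxy).2), Nat.card_Ico]
    omega
  · intro a _ a' _ haa
    rw [Function.onFun, Finset.disjoint_left]
    rintro ⟨x, y⟩ hx hy
    simp only [Finset.mem_image, Prod.mk.injEq] at hx hy
    obtain ⟨_, _, rfl, _⟩ := hx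
    obtain ⟨_, _, h2, _⟩ := hy
    exact haa h2.symm

theorem sum_lin (s k T : ℕ) :
    2 * ∑ a ∈ Finset.range (k + 1), (s * (k - a) + T) = (k + 1) * (s * k + 2 * T) := by
  have h1 : ∑ a ∈ Finset.range (k + 1), (s * (k - a) + T) =
      ∑ a ∈ Finset.range (k + 1), (s * a + T) := by
    rw [← Finset.sum_range_reflect]
    refine Finset.sum_congr rfl fun a ha => ?_
    rw [Finset.mem_range] at ha
    congr 2
    omega
  rw [h1]
  induction k with
  | zero => simp
  | succ k ih =>
    rw [Finset.sum_range_succ, Nat.mul_add, ih]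
    · ring
    · rw [← Finset.sum_range_reflect]
      refine Finset.sum_congr rfl fun a ha => ?_
      rw [Finset.mem_range] at ha
      congr 2
      omega

theorem card_linF (s k T : ℕ) : 2 * (linF s k T).card = (k + 1) * (s * k + 2 * T) := by
  rw [card_cols (linF s k T) (k + 1) (fun a => s * (k - a) + T) (fun _ => 0) (fun a b => by
    rw [mem_linF]
    omega), sum_lin]

/-- The window. -/
def W0 (m : ℕ) : ℕ := 2 * (m + 1).choose 3 + (m + 1).choose 2

/-- Ranks away from the critical size. -/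
theorem nc_lin {s k T m : ℕ} (hs : s = 1 ∨ s = 2) (hT : 0 < T) (hm : 0 < m) (hk : m ≤ k)
    (hbig : 8 * (m + 2) ^ 3 ≤ (k + 1) * (s * k + 2 * T)) : NC m (linF s k T) (W0 m) := by
  intro ι _ w hw
  obtain ⟨δ, κ, ρ, f, h1, h2, h3, h4, h5, h6⟩ := exists_delta_lin hs hT hm hk hbig
  obtain ⟨s', u, t, j, g1, g2, g3, g4, g5, g6⟩ :=
    start_lin (T_STAB ℚ ι w) (by omega) hT h1 h2 h3 h4 h5
  have hmu : m ≤ u := by
    rcases h6 with h6 | ⟨h6, h7⟩
    · omega
    · exact h6.trans (g5 h7)
  have hcard := card_linF s k T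
  have h8 : s' * (m * (m + 1)) ≤ s' * (u * (u + 1)) :=
    Nat.mul_le_mul_left _ (Nat.mul_le_mul hmu (by omega))
  have h9 : s' * (m * (m + 1)) ≤ 2 * (linF s k T).card := by
    rw [hcard, ← g3]
    unfold sz
    have h9 : s' * (u * (u + 1)) = s' * u * (u + 1) := by ring
    omega
  have h10 := nc_Lfin ℚ hm hw g1 g2 (by rw [g3, hcard]) h9
  rw [coe_linF]
  exact ⟨fun h => g6 _ (h10.1 h), fun h => g6 _ (h10.2 h)⟩

/-- Sets of columns of linear heights, in any order. -/
theorem nc_cols {s k T m W : ℕ} (Z : Finset (ℕ × ℕ)) (h : NC m (linF s k T) W)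
    (hc : (linF s k T).card = Z.card)
    (hZ : ∀ i l, ((i, l) : ℕ × ℕ) ∈ linF s k T → ∃ A : Finset ℕ, i < A.card ∧
      ∀ a ∈ A, ∃ C : Finset ℕ, l < C.card ∧ ∀ b ∈ C, ((a, b) : ℕ × ℕ) ∈ Z) :
    NC m Z W := by
  classical
  refine NC.of_imp hc (fun ι _ w n hn => ?_) h
  obtain ⟨B, hB⟩ : ∃ B, B = Z.sup (fun p => p.1 + p.2) := ⟨_, rfl⟩
  have hBle : ∀ p ∈ Z, p.1 + p.2 ≤ B := fun p hp => by
    rw [hB]
    exact Finset.le_sup (f := fun p : ℕ × ℕ => p.1 + p.2) hp
  have hK : ∀ k : ℕ, 0 < k → k ≤ B → (k : ℚ) ≠ 0 := hKz B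
  refine RkS.compressY (T_STAB ℚ ι w) 0 B hK (M' := {p | ∃ C : Finset ℕ, p.2 < C.card ∧
    ∀ b ∈ C, ((p.1, b) : ℕ × ℕ) ∈ Z}) ?_ ?_
  · refine domY_of_inj fun i q hp => ?_
    obtain ⟨C, hC1, hC2⟩ := hp
    refine ⟨fun a => if h : a < C.card then (C.equivFin.symm ⟨a, h⟩ : ℕ) else 0, ?_, ?_⟩
    · intro a b ha hb hab
      simp only at hC1
      beta_reduce at hab
      rw [dif_pos (show a < C.card by omega), dif_pos (show b < C.card by omega)] at hab
      have h1 := C.equivFin.symm.injective (Subtype.val_injective hab)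
      exact congrArg Fin.val h1
    · intro a ha
      simp only at hC1 hC2 ⊢
      rw [dif_pos (show a < C.card by omega)]
      have h1 := hC2 _ (C.equivFin.symm ⟨a, by omega⟩).2
      have h2 := hBle _ h1
      simp only at h2
      refine ⟨by omega, by omega, fun x hx => ?_⟩
      have h3 : x = i := by omega
      rw [h3]
      exact h1
  · refine RkS.compressX (T_STAB ℚ ι w) B hK (M' := (↑(linF s k T) : Set (ℕ × ℕ))) ?_ hn
    refine domX_of_card fun i q hp => ?_
    obtain ⟨A, hA1, hA2⟩ := hZ i q hp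
    refine ⟨A, hA1, fun x hx => ?_⟩
    obtain ⟨C, hC1, hC2⟩ := hA2 x hx
    refine ⟨?_, ⟨C, hC1, hC2⟩⟩
    obtain ⟨b, hb⟩ : C.Nonempty := Finset.card_pos.1 (by omega)
    have := hBle _ (hC2 b hb)
    simp only at this
    omega

end Pool.Agent.W609.T
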