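import Mathlib
import Pool.Agent.H15.G.R_seed8.W609.T.LinNc
import Pool.Agent.H15.G.R_seed8.W609.T.Bridge

set_option autoImplicit false

/-!
# Ranks away from the critical size for rectangles and for polygons with two cut corners
-/

namespace Pool.Agent.W609.T

open Polynomial Pool.Agent.H932R2 Pool.Agent.H932R3 Pool.Agent.H932R7
open Pool.Agent.W608 Pool.Agent.W611

/-- Columns in any order. -/
theorem nc_dom {m W : ℕ} (Q' Z : Finset (ℕ × ℕ)) (h : NC m Q' W) (hc : Q'.card = Z.card)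
    (hZ : ∀ i l, ((i, l) : ℕ × ℕ) ∈ Q' → ∃ A : Finset ℕ, i < A.card ∧
      ∀ a ∈ A, ∃ C : Finset ℕ, l < C.card ∧ ∀ b ∈ C, ((a, b) : ℕ × ℕ) ∈ Z) :
    NC m Z W := by
  classical
  refine NC.of_imp hc (fun ι _ w n hn => ?_) h
  obtain ⟨B, hB⟩ : ∃ B, B = Z.sup (fun p => p.1 + p.2) := ⟨_, rfl⟩
  have hBle : ∀ p ∈ Z, p.1 + p.2 ≤ B := fun p hp => by
    rw [hB]
    exact Finset.le_sup (f := fun p : ℕ × ℕ => p.1 + p.2) hp
  have hK : ∀ k : ℕ, 0 < k → k ≤ B → (k : ℚ) ≠ 0 := hKz B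
  refine RkS.compressY (T_STAB ℚ ι w) 0 B hK (M' := {p | ∃ C : Finset ℕ, p.2 < C.card ∧
    ∀ b ∈ C, ((p.1, b) : ℕ × ℕ) ∈ Z}) ?_ ?_
  · refine domY_of_inj fun i q hp => ?_
    obtain ⟨C, hC1, hC2⟩ := hp
    refine ⟨fun a => if h : a < C.card then (C.equivFin.symm ⟨a, h⟩ : ℕ) else 0, ?_, ?_⟩
    · intro a b ha hb hab
      simp only at hC1
      beta_reduce at hab
      rw [dif_pos (show a < C.card by omega), dif_pos (show b < C.card by omega)] at hab
      have h1 := C.equivFin.symm.injective (Subtype.val_injective hab)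
      exact congrArg Fin.val h1
    · intro a ha
      simp only at hC1 hC2 ⊢
      rw [dif_pos (show a < C.card by omega)]
      have h1 := hC2 _ (C.equivFin.symm ⟨a, by omega⟩).2
      have h2 := hBle _ h1
      simp only at h2
      refine ⟨by omega, by omega, fun x hx => ?_⟩
      have h3 : x = i := by omega
      rw [h3]
      exact h1
  · refine RkS.compressX (T_STAB ℚ ι w) B hK (M' := (↑Q' : Set (ℕ × ℕ))) ?_ hn
    refine domX_of_card fun i q hp => ?_
    obtain ⟨A, hA1, hA2⟩ := hZ i q hp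
    refine ⟨A, hA1, fun x hx => ?_⟩
    obtain ⟨C, hC1, hC2⟩ := hA2 x hx
    refine ⟨?_, ⟨C, hC1, hC2⟩⟩
    obtain ⟨b, hb⟩ : C.Nonempty := Finset.card_pos.1 (by omega)
    have := hBle _ (hC2 b hb)
    simp only at this
    omega

/-- Sets given by columns which are intervals, sorted heights `h`. -/
theorem nc_int {m W K : ℕ} {h : ℕ → ℕ} (Q' Z : Finset (ℕ × ℕ)) (hn : NC m Q' W)
    (hQ : ∀ a b, ((a, b) : ℕ × ℕ) ∈ Q' ↔ a < K ∧ b < h a) (σ g : ℕ → ℕ)
    (hσ : ∀ a b, a < K → b < K → σ a = σ b → a = b)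
    (hZ : ∀ a b, ((a, b) : ℕ × ℕ) ∈ Z ↔ ∃ i < K, a = σ i ∧ g i ≤ b ∧ b < g i + h i)
    (hh : ∀ a b, a ≤ b → b < K → h b ≤ h a) : NC m Z W := by
  classical
  refine nc_dom Q' Z hn ?_ fun i l hil => ?_
  · refine Finset.card_bij' (fun p _ => (σ p.1, g p.1 + p.2))
      (fun p hp => ((Classical.choose ((hZ p.1 p.2).1 hp)),
        p.2 - g (Classical.choose ((hZ p.1 p.2).1 hp)))) ?_ ?_ ?_ ?_
    · rintro ⟨a, b⟩ hp
      rw [hQ] at hp
      rw [hZ]
      exact ⟨a, hp.1, rfl, by simp only; omega, by simp only; omega⟩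
    · rintro ⟨a, b⟩ hp
      have h1 := Classical.choose_spec ((hZ a b).1 hp)
      obtain ⟨h2, h3, h4, h5⟩ := h1
      rw [hQ]
      exact ⟨h2, by simp only; omega⟩
    · rintro ⟨a, b⟩ hp
      have hp0 := hp
      rw [hQ] at hp
      have hz : ((σ a, g a + b) : ℕ × ℕ) ∈ Z := by
        rw [hZ]
        exact ⟨a, hp.1, rfl, by omega, by omega⟩
      have h1 := Classical.choose_spec ((hZ _ _).1 hz)
      obtain ⟨h2, h3, h4, h5⟩ := h1
      have h6 := hσ _ _ hp.1 h2 h3
      simp only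
      rw [Prod.mk.injEq]
      rw [← h6]
      exact ⟨rfl, by omega⟩
    · rintro ⟨a, b⟩ hp
      have h1 := Classical.choose_spec ((hZ a b).1 hp)
      obtain ⟨h2, h3, h4, h5⟩ := h1
      simp only
      rw [Prod.mk.injEq]
      exact ⟨h3.symm, by omega⟩
  · rw [hQ] at hil
    refine ⟨(Finset.range (i + 1)).image σ, ?_, fun a ha => ?_⟩
    · rw [Finset.card_image_of_injOn, Finset.card_range]
      · omega
      · intro x hx y hy hxy
        rw [Finset.mem_coe, Finset.mem_range] at hx hy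
        exact hσ x y (by omega) (by omega) hxy
    · rw [Finset.mem_image] at ha
      obtain ⟨x, hx, rfl⟩ := ha
      rw [Finset.mem_range] at hx
      refine ⟨Finset.Ico (g x) (g x + h x), ?_, fun b hb => ?_⟩
      · rw [Nat.card_Ico]
        have := hh x i (by omega) hil.1
        omega
      · rw [Finset.mem_Ico] at hb
        rw [hZ]
        exact ⟨x, by omega, rfl, hb.1, hb.2⟩

/-- The rectangle. -/
def rectF (K H : ℕ) : Finset (ℕ × ℕ) := Finset.range K ×ˢ Finset.range H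

theorem mem_rectF {K H a b : ℕ} : ((a, b) : ℕ × ℕ) ∈ rectF K H ↔ a < K ∧ b < H := by
  unfold rectF
  rw [Finset.mem_product, Finset.mem_range, Finset.mem_range]

theorem card_rectF (K H : ℕ) : (rectF K H).card = K * H := by
  unfold rectF
  rw [Finset.card_product, Finset.card_range, Finset.card_range]

/-- Ranks on a rectangle, away from the critical size. -/
theorem nc_rect {K H m : ℕ} (hm : 0 < m) (hK : m + 1 ≤ K) (hH : K ≤ H)
    (hbig : 4 * (m + 2) ^ 3 ≤ K * H) : NC m (rectF K H) (W0 m) := by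
  obtain ⟨k, rfl⟩ : ∃ k, K = k + 1 := ⟨K - 1, by omega⟩
  obtain ⟨h, rfl⟩ : ∃ h, H = h + 1 := ⟨H - 1, by omega⟩
  have h1 := nc_lin (s := 2) (k := k) (T := h - k + 1) (m := m) (Or.inr rfl) (by omega) hm
    (by omega) (by
      have e : (k + 1) * (2 * k + 2 * (h - k + 1)) = 2 * ((k + 1) * (h + 1)) := by
        have : 2 * k + 2 * (h - k + 1) = 2 * (h + 1) := by omega
        rw [this]
        ring
      omega)
  refine NC.of_imp ?_ (fun ι _ w n hn => ?_) h1
  · have h2 := card_linF 2 k (h - k + 1)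
    have e : (k + 1) * (2 * k + 2 * (h - k + 1)) = 2 * ((k + 1) * (h + 1)) := by
      have : 2 * k + 2 * (h - k + 1) = 2 * (h + 1) := by omega
      rw [this]
      ring
    rw [card_rectF]
    omega
  · have g1 := rkS_swap hn
    have g2 := tz_rect (T_STAB ℚ ι w) (k₁ := k) (k₂ := h) (n := n) (by omega) (RkS.mono (by
      rintro ⟨i, l⟩ hp
      have h6 : ((l, i) : ℕ × ℕ) ∈ linF 2 k (h - k + 1) := hp
      rw [mem_linF] at h6
      simp only [Set.mem_ofPred_eq]
      omega) g1)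
    have g3 := rkS_swap g2
    refine RkS.mono ?_ g3
    rintro ⟨i, l⟩ hp
    rw [Finset.mem_coe, mem_rectF]
    exact ⟨hp.2, hp.1⟩

end Pool.Agent.W609.T
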