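import Mathlib
import Pool.Agent.H15.G.R_seed8.W609.T.Reg

set_option autoImplicit false

/-!
# From balanced shapes to sets with linear columns and a hole of unknown form in one strip
-/

namespace Pool.Agent.W609.T

open Polynomial Pool.Agent.H932R2 Pool.Agent.H932R3 Pool.Agent.H932R7
open Pool.Agent.W608 Pool.Agent.W611

/-- The shape after the compression along the lines `i + δ l = const`. -/
def MR (δ s u c₀ : ℕ) (R : Finset (ℕ × ℕ)) : Set (ℕ × ℕ) :=
  {p | p.2 ≤ u ∧ p.1 / δ + s * (p.1 % δ + δ * p.2) < c₀ ∧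
    (p.2 = u → ((p.1 % δ + δ * u, p.1 / δ) : ℕ × ℕ) ∉ R)}

theorem mem_MR {δ s u c₀ i l : ℕ} {R : Finset (ℕ × ℕ)} : ((i, l) : ℕ × ℕ) ∈ MR δ s u c₀ R ↔
    l ≤ u ∧ i / δ + s * (i % δ + δ * l) < c₀ ∧
      (l = u → ((i % δ + δ * u, i / δ) : ℕ × ℕ) ∉ R) := Iff.rfl

theorem hole_1 {s δ u c₀ B : ℕ} (hs : 0 < s) (hδ : 0 < δ) {Q R : Finset (ℕ × ℕ)}
    (hQ : ∀ a b, a < δ * (u + 1) → (((a, b) : ℕ × ℕ) ∈ Q ↔ b + s * a < c₀))
    (hR : ∀ p ∈ R, δ * u ≤ p.1) (hB : c₀ + u ≤ B) :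
    DomY δ B ((↑Q : Set (ℕ × ℕ)) \ (↑R : Set (ℕ × ℕ))) (MR δ s u c₀ R) := by
  refine domY_of_block fun i q hp => ?_
  rw [mem_MR] at hp
  obtain ⟨a, ha⟩ : ∃ a, a = i / δ := ⟨_, rfl⟩
  obtain ⟨b, hb⟩ : ∃ b, b = i % δ := ⟨_, rfl⟩
  have hi : δ * a + b = i := by rw [ha, hb]; exact Nat.div_add_mod i δ
  have hbδ : b < δ := by rw [hb]; exact Nat.mod_lt _ hδ
  rw [← ha, ← hb] at hp
  obtain ⟨hp1, hp2, hp3⟩ := hp
  refine ⟨a, by omega, ?_, fun l hl hl' x hx => ?_⟩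
  · rw [Nat.mul_add]
    omega
  · obtain ⟨e, rfl⟩ := Nat.exists_eq_add_of_le hl
    obtain ⟨g, hg⟩ : ∃ g, q = e + g := ⟨q - e, by omega⟩
    have h1 : δ * (a + e) = δ * a + δ * e := by ring
    have h2 : δ * q = δ * e + δ * g := by rw [hg]; ring
    have hx' : x = b + δ * g := by omega
    have h5 : e ≤ δ * e := Nat.le_mul_of_pos_left e hδ
    have h6 : δ * e ≤ s * (δ * e) := Nat.le_mul_of_pos_left _ hs
    have h7 : s * (b + δ * q) = s * (b + δ * g) + s * (δ * e) := by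
      rw [h2]
      ring
    have h8 : δ * g ≤ δ * u := Nat.mul_le_mul_left _ (by omega)
    have h9 : δ * (u + 1) = δ * u + δ := by ring
    refine ⟨?_, fun hmem => ?_⟩
    · rw [Finset.mem_coe, hQ x (a + e) (by omega), hx']
      omega
    · have h10 := hR _ hmem
      simp only at h10
      have h11 : g = u := by
        rcases Nat.lt_or_ge g u with h | h
        · have : δ * (g + 1) ≤ δ * u := Nat.mul_le_mul_left _ h
          have e3 : δ * (g + 1) = δ * g + δ := by ring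
          omega
        · omega
      have h12 : e = 0 := by omega
      have h13 := hp3 (by omega)
      rw [hx', h11, h12, Nat.add_zero] at hmem
      exact h13 hmem

theorem hole_2 {s δ u c₀ T e B : ℕ} (hδ : 0 < δ) (hs : 0 < s) {Q R : Finset (ℕ × ℕ)}
    (hc0 : s * (δ * (u + 1)) ≤ c₀)
    (hR0 : ∀ p ∈ Q, δ * (u + 1) ≤ p.1 → p ∈ R) (hRQ : R ⊆ Q)
    (hT : T + s * (δ * δ) * u + s * cc δ = δ * c₀)
    (he : R.card = (Q.filter fun p => δ * (u + 1) ≤ p.1).card + e) (hB : δ * c₀ + δ ≤ B) :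
    DomX B (MR δ s u c₀ R) (↑(blk (s * (δ * δ)) u T e) : Set (ℕ × ℕ)) := by
  classical
  refine domX_of_card fun i q hp => ?_
  rw [Finset.mem_coe, blk, mem_rowsF] at hp
  obtain ⟨hq, hi⟩ := hp
  obtain ⟨ρ, hρ⟩ : ∃ ρ, δ = ρ + 1 := ⟨δ - 1, by omega⟩
  obtain ⟨k, hk⟩ : ∃ k, k = δ * u + ρ := ⟨_, rfl⟩
  have hk1 : k + 1 = δ * (u + 1) := by rw [hk, Nat.mul_add, hρ]; omega
  have hsk : s * k + s ≤ c₀ := by
    have : s * k + s = s * (k + 1) := by ring
    rw [this, hk1]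
    exact hc0
  obtain ⟨T₁, hT₁⟩ : ∃ T₁, c₀ = s * k + T₁ := ⟨c₀ - s * k, by omega⟩
  obtain ⟨A, hA, hM⟩ := exists_colsL δ s k T₁ q hδ
  have hM' : ∀ x ∈ A, x / δ + s * (x % δ + δ * q) < c₀ := by
    intro x hx
    have h1 := mem_M1L.1 (hM x hx)
    obtain ⟨h2, h3⟩ := h1
    have h4 : s * (k - (x % δ + δ * q)) + s * (x % δ + δ * q) = s * k := by
      rw [← Nat.mul_add]
      congr 1
      omega
    omega
  have hbound : ∀ x ∈ A, x ≤ B := by
    intro x hx
    have h1 := hM' x hx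
    refine le_trans ?_ hB
    have h2 := Nat.div_add_mod x δ
    have h4 := Nat.mod_lt x hδ
    have h5 : δ * (x / δ) ≤ δ * c₀ := Nat.mul_le_mul_left _ (by omega)
    omega
  have hval : T + s * cc δ = s * (δ * ρ) + δ * T₁ := by
    have e1 : δ * c₀ = s * (δ * δ) * u + (s * (δ * ρ) + δ * T₁) := by
      rw [hT₁, hk]
      ring
    omega
  rcases Nat.lt_or_ge q u with hqu | hqu
  · obtain ⟨w, hw⟩ : ∃ w, u = q + w := Nat.exists_eq_add_of_le hqu.le
    have h1 := cntL_low (δ := δ) (s := s) (k := k) (T := T₁) (κ := u) (ρ := ρ) (by omega) hk hw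
      (by omega)
    refine ⟨A, ?_, fun x hx => ⟨hbound x hx, ?_⟩⟩
    · rw [if_neg (by omega)] at hi
      have e2 : u - q = w := by omega
      rw [e2] at hi
      omega
    · rw [mem_MR]
      exact ⟨by omega, hM' x hx, fun h => by omega⟩
  · have hqe : q = u := by omega
    subst hqe
    have h1 := cntL_top (δ := δ) (s := s) (k := k) (T := T₁) (κ := q) (ρ := ρ) (by omega) hk
    rw [← hρ] at h1
    refine ⟨A.filter fun x => ((x % δ + δ * q, x / δ) : ℕ × ℕ) ∉ R, ?_, fun x hx => ?_⟩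
    · have h2 := Finset.card_filter_add_card_filter_not (s := A)
        (fun x => ((x % δ + δ * q, x / δ) : ℕ × ℕ) ∈ R)
      have h3 : (A.filter fun x => ((x % δ + δ * q, x / δ) : ℕ × ℕ) ∈ R).card ≤
          (R.filter fun p => ¬ δ * (q + 1) ≤ p.1).card := by
        refine Finset.card_le_card_of_injOn (fun x => (x % δ + δ * q, x / δ))
          (fun x hx => ?_) ?_
        · rw [Finset.mem_coe, Finset.mem_filter] at hx
          rw [Finset.mem_coe, Finset.mem_filter]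
          refine ⟨hx.2, ?_⟩
          have h5 := Nat.mod_lt x hδ
          have e : δ * (q + 1) = δ * q + δ := by ring
          simp only
          omega
        · intro x _ y _ hxy
          simp only [Prod.mk.injEq] at hxy
          have h4 := Nat.div_add_mod x δ
          have h5 := Nat.div_add_mod y δ
          rw [hxy.2] at h4
          omega
      have h4 := Finset.card_filter_add_card_filter_not (s := R) (fun p => δ * (q + 1) ≤ p.1)
      have h5 : (R.filter fun p => δ * (q + 1) ≤ p.1) = Q.filter fun p => δ * (q + 1) ≤ p.1 := by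
        ext p
        rw [Finset.mem_filter, Finset.mem_filter]
        exact ⟨fun h => ⟨hRQ h.1, h.2⟩, fun h => ⟨hR0 p h.1 h.2, h.2⟩⟩
      rw [h5] at h4
      rw [if_pos rfl] at hi
      have e3 : s * (δ * ρ) = s * (δ * ρ) := rfl
      omega
    · rw [Finset.mem_filter] at hx
      refine ⟨hbound x hx.1, ?_⟩
      rw [mem_MR]
      exact ⟨le_rfl, hM' x hx.1, fun _ => hx.2⟩

variable {K : Type} [Field K] [CharZero K] {𝓘 : Set (Ideal K[X][X])}

/-- From a block to the set with a hole. -/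
theorem start_cols (h𝓘 : Stable 𝓘) {s δ u c₀ T e n : ℕ} (hs : 0 < s) (hδ : 0 < δ)
    {Q R : Finset (ℕ × ℕ)} (hc0 : s * (δ * (u + 1)) ≤ c₀)
    (hQ : ∀ a b, a < δ * (u + 1) → (((a, b) : ℕ × ℕ) ∈ Q ↔ b + s * a < c₀))
    (hRQ : R ⊆ Q) (hR : ∀ p ∈ R, δ * u ≤ p.1)
    (hR0 : ∀ p ∈ Q, δ * (u + 1) ≤ p.1 → p ∈ R)
    (hT : T + s * (δ * δ) * u + s * cc δ = δ * c₀)
    (he : R.card = (Q.filter fun p => δ * (u + 1) ≤ p.1).card + e)
    (h : RkS 𝓘 (↑(blk (s * (δ * δ)) u T e) : Set (ℕ × ℕ)) n) :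
    RkS 𝓘 ((↑Q : Set (ℕ × ℕ)) \ (↑R : Set (ℕ × ℕ))) n := by
  have : Infinite K := infK
  obtain ⟨B, hB⟩ : ∃ B, B = δ * c₀ + δ + (c₀ + u) := ⟨_, rfl⟩
  exact RkS.compressY h𝓘 δ B (hKz B) (hole_1 hs hδ hQ hR (by omega))
    (RkS.compressX h𝓘 B (hKz B) (hole_2 hδ hs hc0 hR0 hRQ hT he (by omega)) h)

/-- The number of elements of the first columns. -/
theorem card_zone {s c₀ : ℕ} (Q : Finset (ℕ × ℕ)) (n : ℕ)
    (hQ : ∀ a b, a < n → (((a, b) : ℕ × ℕ) ∈ Q ↔ b + s * a < c₀)) (hn : s * n ≤ c₀ + s) :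
    (Q.filter fun p => ¬ n ≤ p.1).card + s * cc n = n * c₀ := by
  classical
  rw [card_cols (Q.filter fun p => ¬ n ≤ p.1) n (fun a => c₀ - s * a) (fun _ => 0) (fun a b => by
    rw [Finset.mem_filter]
    constructor
    · rintro ⟨h1, h2⟩
      simp only at h2
      rw [hQ a b (by omega)] at h1
      omega
    · rintro ⟨h1, _, h2⟩
      rw [hQ a b h1]
      exact ⟨by omega, by simp only; omega⟩)]
  unfold cc
  rw [Finset.mul_sum, ← Finset.sum_add_distrib]
  rw [Finset.sum_congr rfl (g := fun _ => c₀) (fun a ha => ?_), Finset.sum_const,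
    Finset.card_range, smul_eq_mul]
  rw [Finset.mem_range] at ha
  have h1 : s * (a + 1) ≤ s * n := Nat.mul_le_mul_left _ ha
  have h2 : s * (a + 1) = s * a + s := by ring
  omega

end Pool.Agent.W609.T
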