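import Mathlib
import Pool.Agent.H15.G.R_seed8.W609.T.Crit
import Pool.Agent.H15.G.R_seed8.W609.Rank

set_option autoImplicit false

/-!
# From exact ranks near the critical size to all exact ranks
-/

namespace Pool.Agent.W609.T

open Polynomial Pool.Agent.H932R2 Pool.Agent.H932R3 Pool.Agent.H932R7
open Pool.Agent.W608 Pool.Agent.W611

theorem rank_abs {β : Type} [Fintype β] (u : β → ℕ) {m N : ℕ} (hm : 0 < m) (Q : Finset (ℕ × ℕ))
    (hN : Q.card = Aw u + N) (hP : (m + 1) ^ 4 ≤ N)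
    (hcrit : ∀ k₀, 0 < k₀ → k₀ ≤ m → ∀ (ι : Type) [Fintype ι] (w : ι → ℕ), (∀ a, w a ≤ m) →
      (∑ a, if w a < k₀ then w a * (w a + 1) else 0) ≤ (m + 1) ^ 4 →
      2 * N < 2 * Aw w + k₀ * (k₀ + 1) → 2 * Aw w < 2 * N + k₀ * (k₀ + 1) →
      m * (m + 1) * (m + 2) + k₀ * (k₀ + 1) ≤ Nat.card {a // w a = k₀} * (k₀ * (k₀ + 1)) →
      RkS (PF ℚ (Sum.elim u w)) (↑Q : Set (ℕ × ℕ)) (Aw u + min N (Aw w)))
    (ι : Type) [Fintype ι] (w : ι → ℕ) (hw : ∀ a, w a ≤ m) :
    RkS (PF ℚ (Sum.elim u w)) (↑Q : Set (ℕ × ℕ)) (Aw u + min N (Aw w)) := by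
  classical
  rcases Nat.le_total (Aw w) N with hAN | hNA
  · -- adding points of multiplicity `m`, then of multiplicity `k₀`
    rw [min_eq_right hAN]
    obtain ⟨c, hc⟩ : ∃ c, c = (m + 1).choose 2 := ⟨_, rfl⟩
    have hc2 : 2 * c = m * (m + 1) := by rw [hc]; exact two_choose' m
    have hc0 : 0 < c := by
      rw [hc]
      exact Nat.choose_pos (by omega)
    obtain ⟨x, hx⟩ : ∃ x, x = (N - Aw w) / c := ⟨_, rfl⟩
    have hx1' : x * c ≤ N - Aw w := by
      rw [hx]
      exact Nat.div_mul_le_self _ _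
    have hx2' : N - Aw w < x * c + c := by
      rw [hx]
      exact Nat.lt_div_mul_add hc0
    obtain ⟨w1, hw1⟩ : ∃ w1 : ι ⊕ Fin x → ℕ, w1 = Sum.elim w (fun _ : Fin x => m) := ⟨_, rfl⟩
    have hA1 : Aw w1 = Aw w + x * c := by
      unfold Aw
      rw [hw1, Fintype.sum_sum_type]
      simp only [Sum.elim_inl, Sum.elim_inr, Finset.sum_const, Finset.card_univ, Fintype.card_fin,
        smul_eq_mul]
      rw [← hc]
    have hw1m : ∀ a, w1 a ≤ m := by
      rw [hw1]
      rintro (a | a)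
      · exact hw a
      · exact le_rfl
    obtain ⟨k₀, h0, h1, h2, h3⟩ := exists_rich' w1 m (2 * N) hm hw1m (by omega) (by omega)
    obtain ⟨c₀, hc₀⟩ : ∃ c₀, c₀ = (k₀ + 1).choose 2 := ⟨_, rfl⟩
    have hc₀2 : 2 * c₀ = k₀ * (k₀ + 1) := by rw [hc₀]; exact two_choose' k₀
    have hc₀0 : 0 < c₀ := by
      rw [hc₀]
      exact Nat.choose_pos (by omega)
    obtain ⟨y, hy⟩ : ∃ y, y = (N - Aw w1) / c₀ := ⟨_, rfl⟩
    have hy1 : y * c₀ ≤ N - Aw w1 := by
      rw [hy]
      exact Nat.div_mul_le_self _ _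
    have hy2 : N - Aw w1 < y * c₀ + c₀ := by
      rw [hy]
      exact Nat.lt_div_mul_add hc₀0
    obtain ⟨w2, hw2⟩ : ∃ w2 : (ι ⊕ Fin x) ⊕ Fin y → ℕ,
      w2 = Sum.elim w1 (fun _ : Fin y => k₀) := ⟨_, rfl⟩
    have hA2 : Aw w2 = Aw w1 + y * c₀ := by
      unfold Aw
      rw [hw2, Fintype.sum_sum_type]
      simp only [Sum.elim_inl, Sum.elim_inr, Finset.sum_const, Finset.card_univ, Fintype.card_fin,
        smul_eq_mul]
      rw [← hc₀]
    have hw2m : ∀ a, w2 a ≤ m := by
      rw [hw2]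
      rintro (a | a)
      · exact hw1m a
      · exact h1
    have hq : k₀ * (k₀ + 1) ≤ m * (m + 1) := Nat.mul_le_mul h1 (by omega)
    have h := hcrit k₀ h0 h1 _ w2 hw2m
      (by
        rw [hw2, Fintype.sum_sum_type]
        have h4 : (∑ b : Fin y, if Sum.elim w1 (fun _ : Fin y => k₀) (Sum.inr b) < k₀ then
            Sum.elim w1 (fun _ : Fin y => k₀) (Sum.inr b) *
              (Sum.elim w1 (fun _ : Fin y => k₀) (Sum.inr b) + 1) else 0) = 0 :=
          Finset.sum_eq_zero fun b _ => if_neg (lt_irrefl _)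
        rw [h4, add_zero]
        exact h3)
      (by omega) (by omega)
      (by
        have h4 : Nat.card {a // w1 a = k₀} ≤ Nat.card {a // w2 a = k₀} := by
          refine Nat.card_le_card_of_injective (fun a => ⟨Sum.inl a.1, ?_⟩) ?_
          · rw [hw2]
            exact a.2
          · intro a b hab
            have h5 := congrArg Subtype.val hab
            exact Subtype.ext (Sum.inl_injective h5)
        have h5 := Nat.mul_le_mul_right (k₀ * (k₀ + 1)) h4
        have h6 : m * (m + 1) * (m + 3) = m * (m + 1) * (m + 2) + m * (m + 1) := by ring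
        omega)
    rw [min_eq_right (by omega), ← Aw_sum] at h
    rw [← Aw_sum]
    refine (t_tr ℚ (β ⊕ ι) (β ⊕ ((ι ⊕ Fin x) ⊕ Fin y)) (Sum.elim u w) (Sum.elim u w2)
      ⟨fun o => Sum.map id (fun a => Sum.inl (Sum.inl a)) o.1, fun a b hab => ?_⟩ (fun a => ?_)
      Q).1 h
    · exact Subtype.ext (Function.Injective.sumMap Function.injective_id
        (Sum.inl_injective.comp Sum.inl_injective) hab)
    · obtain ⟨b | a, ha⟩ := a
      · exact le_rfl
      · change w a ≤ w2 (Sum.inl (Sum.inl a))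
        rw [hw2, hw1]
        exact le_rfl
  · -- removing points
    rw [min_eq_left hNA]
    obtain ⟨f, hf⟩ : ∃ f : ι → ℕ, f = fun a => (w a + 1).choose 2 := ⟨_, rfl⟩
    have hfa : ∀ a, f a = (w a + 1).choose 2 := fun a => by rw [hf]
    have hAf : Aw w = ∑ a, f a := by
      unfold Aw
      exact Finset.sum_congr rfl fun a _ => (hfa a).symm
    obtain ⟨S, hS, hSmin⟩ := Finset.exists_min_image
      ((Finset.univ : Finset ι).powerset.filter fun S => N ≤ ∑ a ∈ S, f a)
      Finset.card ⟨Finset.univ, by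
        rw [Finset.mem_filter, Finset.mem_powerset]
        exact ⟨Finset.Subset.refl _, by rw [← hAf]; exact hNA⟩⟩
    rw [Finset.mem_filter] at hS
    obtain ⟨-, hS2⟩ := hS
    have hSer : ∀ a ∈ S, ∑ b ∈ S, f b < N + f a := by
      intro a ha
      by_contra hcon
      have h1 : ∑ b ∈ S.erase a, f b + f a = ∑ b ∈ S, f b := Finset.sum_erase_add _ _ ha
      have h2 := hSmin (S.erase a) (by
        rw [Finset.mem_filter, Finset.mem_powerset]
        exact ⟨Finset.subset_univ _, by omega⟩)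
      rw [Finset.card_erase_of_mem ha] at h2
      have h3 : 0 < S.card := Finset.card_pos.2 ⟨a, ha⟩
      omega
    obtain ⟨w1, hw1⟩ : ∃ w1 : {a // a ∈ S} → ℕ, w1 = fun a : {a // a ∈ S} => w a :=
      ⟨_, rfl⟩
    have hA1 : Aw w1 = ∑ a ∈ S, f a := by
      unfold Aw
      rw [hw1, Finset.sum_coe_sort S fun a => (w a + 1).choose 2]
      exact Finset.sum_congr rfl fun a _ => (hfa a).symm
    have hw1m : ∀ a, w1 a ≤ m := fun a => by rw [hw1]; exact hw a.1
    have hmm : 0 < m * (m + 1) := by positivity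
    obtain ⟨k₀, h0, h1, h2, h3⟩ := exists_rich' w1 m (2 * N) hm hw1m (by omega) (by omega)
    have hF0 : 0 < m * (m + 1) * (m + 3) := by positivity
    obtain ⟨a, ha⟩ : ∃ a : {a // a ∈ S}, w1 a = k₀ := by
      by_contra hcon
      push Not at hcon
      have h4 : Nat.card {a // w1 a = k₀} = 0 := by
        rw [Nat.card_eq_zero]
        left
        exact ⟨fun a => hcon a.1 a.2⟩
      rw [h4, zero_mul] at h2
      omega
    have hak : w a.1 = k₀ := by
      rw [← ha, hw1]
    have h4 := hSer a.1 a.2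
    rw [hfa, hak] at h4
    have hc₀2 := two_choose' k₀
    have hq : k₀ * (k₀ + 1) ≤ m * (m + 1) := Nat.mul_le_mul h1 (by omega)
    have hq0 : 0 < k₀ * (k₀ + 1) := by positivity
    have h := hcrit k₀ h0 h1 _ w1 hw1m h3
      (by omega) (by omega)
      (by
        have h6 : m * (m + 1) * (m + 3) = m * (m + 1) * (m + 2) + m * (m + 1) := by ring
        omega)
    rw [min_eq_left (by omega)] at h
    have hle : ∀ a : {a // a ∈ S}, w1 a ≤ w a.1 := by
      rw [hw1]
      exact fun a => le_rfl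
    refine (t_tr ℚ (β ⊕ {a // a ∈ S}) (β ⊕ ι) (Sum.elim u w1) (Sum.elim u w)
      ⟨fun o => Sum.map id Subtype.val o.1, fun a b hab => ?_⟩ (fun a => ?_) Q).2 _ h
    · exact Subtype.ext (Function.Injective.sumMap Function.injective_id
        Subtype.val_injective hab)
    · obtain ⟨b | a, ha⟩ := a
      · exact le_rfl
      · exact hle a

end Pool.Agent.W609.T
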