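import Mathlib
import Pool.Agent.H15.G.R_seed8.W609.T.Bd3

set_option autoImplicit false

/-!
# The boundary case `d = m₁ + m₂ + m₃`: all exact ranks
-/

namespace Pool.Agent.W609.T

open Polynomial Pool.Agent.H932R2 Pool.Agent.H932R3 Pool.Agent.H932R7
open Pool.Agent.W608 Pool.Agent.W611

theorem fr_corner {β : Type} [Fintype β] {u : β → ℕ} {m d d' e W : ℕ} (h : FR u m (Tfin d') W)
    (hd : d = d' + e) : FR u m ((Tfin d).filter fun p => e ≤ p.1) W := by
  classical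
  have e1 : ((Tfin d).filter fun p => e ≤ p.1) = Corner d e := rfl
  have c1 := card_Corner (d := d) (e := e) (b := d' + 1) (by omega)
  have c2 := card_Tfin d'
  have c3 : (Corner d e).card = (Tfin d').card := by
    have : d' + 1 + 1 = d' + 2 := rfl
    rw [this] at c1
    omega
  rw [e1]
  intro ι _ w hw
  have hK : ∀ k : ℕ, 0 < k → (k : ℚ) ≠ 0 := fun k hk => Nat.cast_ne_zero.2 (by omega)
  have hst := T_STAB ℚ _ (Sum.elim u w)
  rw [c3]
  intro h1
  have hn := h ι w hw h1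
  rw [coe_Tfin] at hn
  exact RkS.compressX hst (d + 1) (fun k hk _ => hK k hk) (corner_dom (by omega) (by omega)) hn

/-- The thin slab. -/
theorem fr_thin {M1 M2 m W : ℕ} (hm : 0 < m) (h32 : m ≤ M2) (hM : M2 + 1 ≤ M1)
    (hM2 : (M2 + 1) * (M2 + 2) ≤ 2 * M1) (hW : W0 M2 + (M2 + 1) ≤ W) :
    FR ![M1, M2, m] m (Tfin (M1 + (M2 - 1))) W := by
  intro ι _ w hw h
  obtain ⟨w', hw'⟩ : ∃ w' : Fin 2 ⊕ ι → ℕ, w' = Sum.elim ![M2, m] w := ⟨_, rfl⟩
  have hw'm : ∀ a, w' a ≤ M2 := by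
    rw [hw']
    rintro (b | a)
    · fin_cases b
      · exact le_rfl
      · exact h32
    · exact (hw a).trans (by omega)
  have hA : Aw w' = Aw ![M2, m] + Aw w := by rw [hw', Aw_sum]
  have hAv := Aw_two M2 m
  have hAu := Aw_three M1 M2 m
  have c1 := card_trapF M1 (M2 - 1)
  have c2 := card_Tfin (M1 + (M2 - 1))
  have c3 := R4h.two_choose M1
  have c4 : (M1 + (M2 - 1) + 1) * (M1 + (M2 - 1) + 2) =
      ((M2 - 1) + 1) * ((M2 - 1) + 2 * M1 + 2) + M1 * (M1 + 1) := by ring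
  have g := thin_full (m := M2) (M := M1) (by omega) hM hM2 hw'm (by omega)
  have h1 := big_ov g
  have e : (Tfin (M1 + (M2 - 1))).card =
      (trapF M1 (M2 - 1)).card + (M1 + 1).choose 2 := by omega
  rw [e, coe_Tfin]
  refine rkS_reindex (f := fun o => o.elim (Sum.inl 0) (Sum.elim ![Sum.inl 1, Sum.inl 2] Sum.inr))
    (g := Sum.elim ![none, some (Sum.inl 0), some (Sum.inl 1)] (fun a => some (Sum.inr a)))
    ?_ ?_ h1
  · rintro (_ | b | a)
    · rfl
    · fin_cases b <;> rfl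
    · rfl
  · rw [hw']
    rintro (_ | b | a)
    · rfl
    · fin_cases b <;> rfl
    · rfl

theorem caseD' {m M1 M2 M3 y d : ℕ} (hm : 0 < m) (h3 : m ≤ M3) (h32 : M3 ≤ M2) (h21 : M2 ≤ M1)
    (hd : d = M1 + M2 + y) (hy : M3 ≤ y) (hM2 : M2 < 4 * (m + 1))
    (hM1 : 128 * (m + 1) ^ 3 ≤ M1) : CritP ![M1, M2, M3] m (Tfin d) := by
  obtain ⟨p, hp⟩ : ∃ p, p = m + 1 := ⟨_, rfl⟩
  obtain ⟨P2, hP2⟩ : ∃ P2, P2 = (m + 1) * (m + 1) := ⟨_, rfl⟩
  obtain ⟨P3, hP3⟩ : ∃ P3, P3 = (m + 1) * P2 := ⟨_, rfl⟩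
  obtain ⟨P4, hP4⟩ : ∃ P4, P4 = (m + 1) ^ 4 := ⟨_, rfl⟩
  have hP3' : P3 = (m + 1) ^ 3 := by rw [hP3, hP2]; ring
  have hP43 : P4 = p * P3 := by rw [hP4, hP3', hp]; ring
  have hP34 : 2 * P3 ≤ P4 := by
    rw [hP43]
    exact Nat.mul_le_mul_right _ (by omega)
  have hP23 : 2 * P2 ≤ P3 := by
    rw [hP3]
    exact Nat.mul_le_mul_right _ (by omega)
  have hP12 : 2 * (m + 1) ≤ P2 := by
    rw [hP2]
    exact Nat.mul_le_mul_right _ (by omega)
  rw [← hP3'] at hM1
  have hW : W0 M2 ≤ 22 * P3 := by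
    obtain ⟨Q3, hQ3⟩ : ∃ Q3, Q3 = (M2 + 1) * ((M2 + 1) * (M2 + 1)) := ⟨_, rfl⟩
    obtain ⟨n1, -⟩ := num_p (m := M2) (P2 := (M2 + 1) * (M2 + 1)) (P3 := Q3) (by omega) rfl hQ3
      rfl rfl
    have h1 : Q3 ≤ 64 * P3 := by
      have h2 : M2 + 1 ≤ 4 * (m + 1) := by omega
      rw [hQ3, hP3, hP2]
      calc (M2 + 1) * ((M2 + 1) * (M2 + 1)) ≤
            (4 * (m + 1)) * ((4 * (m + 1)) * (4 * (m + 1))) :=
            Nat.mul_le_mul h2 (Nat.mul_le_mul h2 h2)
        _ = _ := by ring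
    omega
  have hbig : ∀ k, M2 ≤ k → 8 * (M2 + 2) ^ 3 ≤ (k + 1) * (k + 2 * M1 + 2) := by
    intro k hk
    have h1 : (M2 + 1) * (2 * M1) ≤ (k + 1) * (k + 2 * M1 + 2) :=
      Nat.mul_le_mul (by omega) (by omega)
    refine le_trans ?_ h1
    have h2 : 8 * (M2 + 2) ^ 3 ≤ (M2 + 1) * (27 * ((M2 + 1) * (M2 + 1))) := by
      have h0 : 1 ≤ M2 := by omega
      obtain ⟨z, rfl⟩ : ∃ z, M2 = z + 1 := ⟨M2 - 1, by omega⟩
      nlinarith [Nat.zero_le (z * z), Nat.zero_le (z * z * z)]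
    refine h2.trans (Nat.mul_le_mul_left _ ?_)
    have h3 : (M2 + 1) * (M2 + 1) ≤ (4 * (m + 1)) * (4 * (m + 1)) :=
      Nat.mul_le_mul (by omega) (by omega)
    have h4 : (4 * (m + 1)) * (4 * (m + 1)) = 16 * P2 := by rw [hP2]; ring
    omega
  have hncb : ∀ e, e ≤ m + 1 → e ≤ y →
      NCB ![M1, M2, M3] m ((Tfin d).filter fun q => e ≤ q.1) (23 * P3) := by
    intro e he hey
    have h1 := ncb_trap (M1 := M1) (k := M2 + y - e) hm h3 h32 (by omega)
      (hbig _ (by omega)) (show W0 M2 ≤ 23 * P3 by omega)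
    exact ncb_corner h1 (by omega)
  have hfr : FR ![M1, M2, M3] m ((Tfin d).filter fun q => 1 * (m + 1) ≤ q.1) (23 * P3) := by
    rcases Nat.lt_or_ge m y with hmy | hmy
    · rw [one_mul]
      exact (hncb (m + 1) le_rfl (by omega)).fr
    · have hym : y = m := by omega
      have hM3 : M3 = m := by omega
      subst hym
      rw [hM3]
      refine fr_corner (d' := M1 + (M2 - 1)) ?_ (by omega)
      refine fr_thin hm (by omega) (by omega) ?_ (by omega)
      have h1 : (M2 + 1) * (M2 + 2) ≤ (4 * (y + 1)) * (4 * (y + 1) + 1) :=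
        Nat.mul_le_mul (by omega) (by omega)
      have h2 : (4 * (y + 1)) * (4 * (y + 1) + 1) = 16 * P2 + 4 * (y + 1) := by rw [hP2]; ring
      omega
  refine crit_of' ![M1, M2, M3] (Tfin d) (s := 1) (δ := 1) (c₀ := d + 1) (W := 23 * P3)
    (P3 := P3) (P4 := P4) one_pos one_pos (by omega) (fun a b hab => ?_) hP3' hP4
    (hncb _ (by omega) (by omega)) hfr (by omega) ?_ ?_
  · rw [mem_Tfin]
    omega
  · have h1 : m + 1 ≤ P3 := by omega
    omega
  · have c1 := card_hex (d := d - 1 * m) (M1 := M1) (M2 := M2) (M3 := M3) (by omega) (by omega)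
      (by omega)
    have c2 := hex_area2 (d := d - 1 * m) (M1 := M1) (M2 := M2) (M3 := M3) (y := y - m)
      (by omega) h32 h21
    have c3 : ((Tfin d).filter fun q => 1 * m ≤ q.1).card = (Tfin (d - 1 * m)).card := by
      have e2 : ((Tfin d).filter fun p => 1 * m ≤ p.1) = Corner d (1 * m) := rfl
      have c1 := card_Corner (d := d) (e := 1 * m) (b := d - 1 * m + 1) (by omega)
      have c2 := card_Tfin (d - 1 * m)
      have : d - 1 * m + 1 + 1 = d - 1 * m + 2 := rfl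
      rw [this] at c1
      rw [e2]
      omega
    rw [c3, ← c1, Aw_three]
    have h1 : p * (128 * P3) ≤ (M2 + 1) * M1 := Nat.mul_le_mul (by omega) hM1
    have h2 : p * (128 * P3) = 128 * P4 := by rw [hP43]; ring
    omega

/-- All exact ranks with three points of arbitrary multiplicity. -/
theorem rank3' {m M1 M2 M3 y d : ℕ} (hm : 0 < m) (h3 : m ≤ M3) (h32 : M3 ≤ M2) (h21 : M2 ≤ M1)
    (hd : d = M1 + M2 + y) (hy : M3 ≤ y)
    (hbig : 131072 * (m + 1) ^ 4 + (M1 * (M1 + 1) + M2 * (M2 + 1) + M3 * (M3 + 1)) ≤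
      (d + 1) * (d + 2)) (ι : Type) [Fintype ι] (w : ι → ℕ) (hw : ∀ a, w a ≤ m) :
    RkS (PF ℚ (Sum.elim ![M1, M2, M3] w)) (Tset d)
      (min ((d + 2).choose 2) (Aw ![M1, M2, M3] + Aw w)) := by
  obtain ⟨P4, hP4⟩ : ∃ P4, P4 = (m + 1) ^ 4 := ⟨_, rfl⟩
  obtain ⟨P3, hP3⟩ : ∃ P3, P3 = (m + 1) ^ 3 := ⟨_, rfl⟩
  obtain ⟨P2, hP2⟩ : ∃ P2, P2 = (m + 1) ^ 2 := ⟨_, rfl⟩
  have hP42 : P4 = P2 * P2 := by rw [hP4, hP2]; ring
  have hP43 : P4 = (m + 1) * P3 := by rw [hP4, hP3]; ring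
  have hP22 : P2 = (m + 1) * (m + 1) := by rw [hP2]; ring
  have hP20 : 0 < P2 := by rw [hP2]; positivity
  have hP40 : P2 ≤ P4 := by
    rw [hP42]
    exact Nat.le_mul_of_pos_left _ hP20
  rw [← hP4] at hbig
  have c1 := card_hex (d := d) (M1 := M1) (M2 := M2) (M3 := M3) (by omega) (by omega) (by omega)
  have c2 := card_Tfin d
  have hd2 := H932R7.two_choose d
  have t1 := R4h.two_choose M1
  have t2 := R4h.two_choose M2
  have t3 := R4h.two_choose M3
  have hAu := Aw_three M1 M2 M3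
  obtain ⟨N, hN⟩ : ∃ N, N = (Rg 1 0 (d + 1) (d - M1) M2 M3).card := ⟨_, rfl⟩
  rw [← hN] at c1
  have hN4 : 65536 * P4 ≤ N := by omega
  -- an upper bound for `N`
  have hNup : N ≤ M1 * M2 + (y + 1) * (d + 1) := by
    have e1 : (d + 1) * (d + 2) + y * (y + 1) = 2 * (M1 * M2 + (y + 1) * (d + 1)) +
        M1 * (M1 + 1) + M2 * (M2 + 1) := by
      rw [hd]
      ring
    omega
  have hcrit : CritP ![M1, M2, M3] m (Tfin d) := by
    by_cases hC : 4 * (m + 1) ≤ y ∧ 8192 * P4 ≤ y * d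
    · exact caseC' hm h3 h32 h21 hd hy hC.1 (by rw [← hP4]; exact hC.2)
    · have hyd : (y + 1) * (d + 1) ≤ 4 * (y * d) := by
        have h1 : (y + 1) * (d + 1) ≤ (2 * y) * (2 * d) := Nat.mul_le_mul (by omega) (by omega)
        have h2 : (2 * y) * (2 * d) = 4 * (y * d) := by ring
        omega
      rcases Nat.lt_or_ge M2 (4 * (m + 1)) with hM2 | hM2
      · -- the second multiplicity is small
        refine caseD' hm h3 h32 h21 hd hy hM2 ?_
        rw [← hP3]
        have e1 : (m + 1) * (128 * P3) = 128 * P4 := by rw [hP43]; ring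
        by_contra hcon
        push Not at hcon
        have h1 : (m + 1) * M1 ≤ (m + 1) * (128 * P3) := Nat.mul_le_mul_left _ hcon.le
        have h2 : M1 * M2 ≤ M1 * (4 * (m + 1)) := Nat.mul_le_mul_left _ hM2.le
        have h3 : M1 * (4 * (m + 1)) = 4 * ((m + 1) * M1) := by ring
        rcases Nat.lt_or_ge y (4 * (m + 1)) with hy4 | hy4
        · have h4 : (y + 1) * (d + 1) ≤ (4 * (m + 1)) * (M1 + 8 * (m + 1)) :=
            Nat.mul_le_mul (by omega) (by omega)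
          have h5 : (4 * (m + 1)) * (M1 + 8 * (m + 1)) = 4 * ((m + 1) * M1) + 32 * P2 := by
            rw [hP22]
            ring
          omega
        · have h4 : y * d < 8192 * P4 := by
            by_contra h
            exact hC ⟨hy4, not_lt.1 h⟩
          omega
      · -- the second multiplicity is not small
        have hMM : 8192 * P4 ≤ M1 * M2 := by
          rcases Nat.lt_or_ge y (4 * (m + 1)) with hy4 | hy4
          · have h4 : (y + 1) * (d + 1) ≤ M2 * (3 * M1) := Nat.mul_le_mul (by omega) (by omega)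
            have h5 : M2 * (3 * M1) = 3 * (M1 * M2) := by ring
            omega
          · have h4 : y * d < 8192 * P4 := by
              by_contra h
              exact hC ⟨hy4, not_lt.1 h⟩
            omega
        refine caseB' hm h3 h32 h21 hd hy hM2 ?_ (by rw [← hP4]; omega)
        rw [← hP2]
        by_contra hcon
        push Not at hcon
        have h1 : M1 * M2 ≤ (32 * P2) * (32 * P2) := Nat.mul_le_mul hcon.le (by omega)
        have h2 : (32 * P2) * (32 * P2) = 1024 * P4 := by rw [hP42]; ring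
        omega
  have h := rank_abs ![M1, M2, M3] (N := N) hm (Tfin d) (by omega) (by rw [← hP4]; omega)
    (fun k₀ h0 h1 κ _ v hv htail hN1 hN2 hfr => by
      have h2 := hcrit k₀ h0 h1 κ v hv htail (by omega) (by omega) hfr
      have e : min (Tfin d).card (Aw ![M1, M2, M3] + Aw v) =
          Aw ![M1, M2, M3] + min N (Aw v) := by omega
      rw [e] at h2
      exact h2) ι w hw
  rw [← coe_Tfin]
  have e : min ((d + 2).choose 2) (Aw ![M1, M2, M3] + Aw w) =
      Aw ![M1, M2, M3] + min N (Aw w) := by omega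
  rw [e]
  exact h

end Pool.Agent.W609.T
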