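import Mathlib
import Pool.Agent.H15.G.R_seed8.W609.T.Fin4
import Pool.Agent.H15.G.R_seed8.W611.FinH

set_option autoImplicit false

/-!
# Five points of arbitrary multiplicity, `d ≥ m₁ + m₂ + m₃`
-/

namespace Pool.Agent.W609.T

open Polynomial Pool.Agent.H932R2 Pool.Agent.H932R3 Pool.Agent.H932R7

theorem rkS_zero' {ι : Type} (w : ι → ℕ) (M : Set (ℕ × ℕ)) : RkS (PF ℚ w) M 0 := by
  refine ⟨_, ⟨fun _ => 0, fun _ => 0, rfl⟩, ?_⟩
  exact ⟨fun _ => 0, fun i => i.elim0, fun _ _ i => i.elim0⟩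

/-- Three points. -/
theorem big_three (L : Type) [Field L] [CharZero L] {r : ℕ} {v : Fin (r + 4) → ℕ}
    (hv : Antitone v) (h0 : v 3 = 0) :
    ∃ F : MvPolynomial (Fin (r + 4) × Fin 2) ℚ, F ≠ 0 ∧ ∀ P : Fin (r + 4) → Fin 2 → L,
      MvPolynomial.aeval (fun ij : Fin (r + 4) × Fin 2 => P ij.1 ij.2) F ≠ 0 →
        ∀ d : ℕ, v 0 + v 1 + v 2 ≤ d → ExpDim L v P d := by
  classical
  have n0 : ((0 : Fin (r + 4)) : ℕ) = 0 := rfl
  have n1 : ((1 : Fin (r + 4)) : ℕ) = 1 := Nat.mod_eq_of_lt (show 1 < r + 4 by omega)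
  have n2 : ((2 : Fin (r + 4)) : ℕ) = 2 := Nat.mod_eq_of_lt (show 2 < r + 4 by omega)
  have n3 : ((3 : Fin (r + 4)) : ℕ) = 3 := Nat.mod_eq_of_lt (show 3 < r + 4 by omega)
  have k1 : (Fin.succ (0 : Fin (r + 3))) = (1 : Fin (r + 4)) := Fin.ext (by rw [n1]; rfl)
  have k2 : (Fin.succ (Fin.succ (0 : Fin (r + 2)))) = (2 : Fin (r + 4)) := Fin.ext (by
    rw [n2]; rfl)
  obtain ⟨w, hw⟩ : ∃ w : Fin (r + 1) → ℕ, w = fun i : Fin (r + 1) => v ⟨i.1 + 3, by omega⟩ :=
    ⟨_, rfl⟩
  have hw0 : ∀ i, w i = 0 := by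
    intro i
    rw [hw]
    have h1 : v ⟨i.1 + 3, by omega⟩ ≤ v 3 := hv (by
      rw [Fin.le_def, n3]
      simp only
      omega)
    simp only
    omega
  have hAw0 : Aw w = 0 := by
    unfold Aw
    refine Finset.sum_eq_zero fun i _ => ?_
    rw [hw0 i]
    rfl
  have hAv : Aw v = Aw ![v 0, v 1, v 2] + Aw w := by
    rw [Aw_three]
    unfold Aw
    rw [Fin.sum_univ_succ, Fin.sum_univ_succ, Fin.sum_univ_succ, k1, k2, hw, ← Nat.add_assoc,
      ← Nat.add_assoc]
    rfl
  have h6 := hex_sum (w := w) (d := v 0 + v 1 + v 2) (M1 := v 0) (M2 := v 1) (M3 := v 2)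
    (by omega) (by omega) (by omega) (rkS_zero' w _)
  rw [coe_Tfin] at h6
  have h7 : RkS (PF ℚ v) (Tset (v 0 + v 1 + v 2)) (Aw v) := by
    rw [hAv, hAw0]
    refine rkS_reindex (f := Sum.elim ![0, 1, 2] (fun i : Fin (r + 1) => ⟨i.1 + 3, by omega⟩))
      (g := fun x : Fin (r + 4) => if h : x.1 < 3 then Sum.inl ⟨x.1, h⟩ else Sum.inr ⟨x.1 - 3, by omega⟩)
      ?_ ?_ h6
    · rintro (b | a)
      · fin_cases b <;> rfl
      · simp
    · rintro (b | a)
      · fin_cases b <;> rfl
      · rw [hw]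
        rfl
  exact exp_of_indep T_HOP h7

/-- Five points of arbitrary multiplicity. -/
theorem big5 (L : Type) [Field L] [CharZero L] {r m : ℕ} (hm : 0 < m) {v : Fin (r + 4) → ℕ}
    (hv : Antitone v) (h5 : ∀ i : Fin (r + 4), 5 ≤ (i : ℕ) → v i ≤ m) :
    ∃ F : MvPolynomial (Fin (r + 4) × Fin 2) ℚ, F ≠ 0 ∧ ∀ P : Fin (r + 4) → Fin 2 → L,
      MvPolynomial.aeval (fun ij : Fin (r + 4) × Fin 2 => P ij.1 ij.2) F ≠ 0 →
        ∀ d : ℕ, v 0 + v 1 + v 2 ≤ d →
          (131072 * (4 * m ^ 2 + 8 * m + 5) ^ 4 +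
              (v 0 * (v 0 + 1) + v 1 * (v 1 + 1) + v 2 * (v 2 + 1)) ≤ (d + 1) * (d + 2) ∨
            131072 * (4 * m ^ 2 + 8 * m + 5) ^ 4 ≤
              ∑ i : Fin (r + 4), if 3 ≤ (i : ℕ) then (v i + 1).choose 2 else 0) →
          ExpDim L v P d := by
  classical
  have n0 : ((0 : Fin (r + 4)) : ℕ) = 0 := rfl
  have n1 : ((1 : Fin (r + 4)) : ℕ) = 1 := Nat.mod_eq_of_lt (show 1 < r + 4 by omega)
  have n2 : ((2 : Fin (r + 4)) : ℕ) = 2 := Nat.mod_eq_of_lt (show 2 < r + 4 by omega)
  have n3 : ((3 : Fin (r + 4)) : ℕ) = 3 := Nat.mod_eq_of_lt (show 3 < r + 4 by omega)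
  have h32 : v 3 ≤ v 2 := hv (by rw [Fin.le_def, n3, n2]; omega)
  have h21 : v 2 ≤ v 1 := hv (by rw [Fin.le_def, n2, n1]; omega)
  have h10 : v 1 ≤ v 0 := hv (by rw [Fin.le_def, n1, n0]; omega)
  rcases Nat.eq_zero_or_pos (v 3) with h0 | h0
  · obtain ⟨F, hF, hF'⟩ := big_three L hv h0
    exact ⟨F, hF, fun P hP d hd _ => hF' P hP d hd⟩
  rcases Nat.lt_or_ge (v 2) (4 * m ^ 2 + 8 * m + 5) with h2 | h2
  · obtain ⟨F, hF, hF'⟩ := big3' L hv h0
    refine ⟨F, hF, fun P hP d hd h => hF' P hP d hd ?_⟩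
    have h4 : 131072 * (v 3 + 1) ^ 4 ≤ 131072 * (4 * m ^ 2 + 8 * m + 5) ^ 4 :=
      Nat.mul_le_mul_left _ (Nat.pow_le_pow_left (by omega) 4)
    rcases h with h | h
    · left
      omega
    · right
      omega
  · have e : W611.ff m = 2 * m ^ 2 + 3 * m + 2 := by
      unfold W611.ff
      ring
    have hm2 : 2 * m ^ 2 ≤ 4 * m ^ 2 := Nat.mul_le_mul_right _ (by omega)
    have hC : W611.Cnd m (v 0 + v 1 + v 2) v := by
      refine ⟨by omega, fun i hi => ?_, fun i j hij hi hj => ?_, ?_⟩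
      · have : v i ≤ v 0 := hv (Fin.zero_le _)
        rw [e]
        omega
      · have hne : (i : ℕ) ≠ (j : ℕ) := fun h => hij (Fin.ext h)
        rw [e]
        rcases Nat.lt_or_ge (i : ℕ) (j : ℕ) with hlt | hge
        · have g1 : v i ≤ v 0 := hv (Fin.zero_le _)
          have g2 : v j ≤ v 1 := hv (by rw [Fin.le_def, n1]; omega)
          omega
        · have g1 : v j ≤ v 0 := hv (Fin.zero_le _)
          have g2 : v i ≤ v 1 := hv (by rw [Fin.le_def, n1]; omega)
          omega
      · right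
        have h7 : W611.Slg m v ≤ v 0 + v 1 + v 2 + (v 1 + v 2) := by
          unfold W611.Slg
          have h8 : ∀ i : Fin (r + 4), (if v i ≤ m then 0 else v i) ≤
              (if i = 0 then v 0 else 0) + (if i = 1 then v 1 else 0) +
              (if i = 2 then v 2 else 0) + (if (i : ℕ) = 3 then v 1 else 0) +
              (if (i : ℕ) = 4 then v 2 else 0) := by
            intro i
            by_cases hi0 : i = 0
            · subst hi0
              rw [if_pos rfl]
              split_ifs <;> omega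
            by_cases hi1 : i = 1
            · subst hi1
              rw [if_pos rfl]
              split_ifs <;> omega
            by_cases hi2 : i = 2
            · subst hi2
              rw [if_pos rfl]
              split_ifs <;> omega
            have c0 : (i : ℕ) ≠ 0 := fun h => hi0 (Fin.ext (by rw [n0]; exact h))
            have c1 : (i : ℕ) ≠ 1 := fun h => hi1 (Fin.ext (by rw [n1]; exact h))
            have c2 : (i : ℕ) ≠ 2 := fun h => hi2 (Fin.ext (by rw [n2]; exact h))
            by_cases hi3 : (i : ℕ) = 3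
            · have g : v i ≤ v 1 := hv (by rw [Fin.le_def, n1]; omega)
              rw [if_pos hi3]
              split_ifs <;> omega
            by_cases hi4 : (i : ℕ) = 4
            · have g : v i ≤ v 2 := hv (by rw [Fin.le_def, n2]; omega)
              rw [if_pos hi4]
              split_ifs <;> omega
            have g := h5 i (by omega)
            rw [if_pos g]
            omega
          refine (Finset.sum_le_sum fun i _ => h8 i).trans ?_
          rw [Finset.sum_add_distrib, Finset.sum_add_distrib, Finset.sum_add_distrib,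
            Finset.sum_add_distrib, Finset.sum_ite_eq', Finset.sum_ite_eq', Finset.sum_ite_eq',
            if_pos (Finset.mem_univ _), if_pos (Finset.mem_univ _), if_pos (Finset.mem_univ _)]
          have h9 : ∀ (t a : ℕ), (∑ i : Fin (r + 4), if (i : ℕ) = t then a else 0) ≤ a := by
            intro t a
            by_cases ht : t < r + 4
            · have : ∀ i : Fin (r + 4), (if (i : ℕ) = t then a else 0) =
                  if i = ⟨t, ht⟩ then a else 0 := by
                intro i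
                by_cases h : i = ⟨t, ht⟩
                · rw [if_pos h, if_pos (by rw [h])]
                · rw [if_neg h, if_neg (fun h' => h (Fin.ext h'))]
              rw [Finset.sum_congr rfl (fun i _ => this i), Finset.sum_ite_eq',
                if_pos (Finset.mem_univ _)]
            · rw [Finset.sum_eq_zero]
              · omega
              · intro i _
                rw [if_neg (by omega)]
          have h10 := h9 3 (v 1)
          have h11 := h9 4 (v 2)
          omega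
        rw [e]
        omega
    obtain ⟨F, hF, hF'⟩ := W611.expH L m hm v (v 0 + v 1 + v 2) hC
    exact ⟨F, hF, fun P hP d hd _ => hF' P hP d (Or.inl hd)⟩

end Pool.Agent.W609.T
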